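import Pool.Agent.H79.QN.Stmts

/-!
# Quartic norm of parabolic exponential sums with curved phase: assembly
-/

set_option autoImplicit false

namespace Pool.Agent.H79.QN

open Finset

/-- the exponential sum -/
noncomputable def F (φ : ℝ → ℝ) (A : Finset ℤ) (a : ℤ → ℂ) (x : ℝ) : ℂ :=
  ∑ n ∈ A, a n * e (n * x + n ^ 2 * φ x)

theorem e_add (s t : ℝ) : e (s + t) = e s * e t := by
  unfold e
  rw [← Complex.exp_add]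
  congr 1
  push_cast
  ring

theorem F_mul (φ : ℝ → ℝ) (A B : Finset ℤ) (a b : ℤ → ℂ) (x : ℝ) :
    F φ A a x * F φ B b x = ∑ z ∈ A ×ˢ B, (a z.1 * b z.2) * ph φ z x := by
  unfold F
  rw [Finset.sum_mul_sum, Finset.sum_product]
  refine sum_congr rfl fun n _ => sum_congr rfl fun m _ => ?_
  have h : ph φ (n, m) x = e (n * x + n ^ 2 * φ x) * e (m * x + m ^ 2 * φ x) := by
    rw [← e_add, ph, sz, mz]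
    congr 1
    push_cast
    ring
  rw [h]
  ring

theorem sum_sq_prod (A B : Finset ℤ) (a b : ℤ → ℂ) :
    ∑ z ∈ A ×ˢ B, ‖a z.1 * b z.2‖ ^ 2 = (∑ n ∈ A, ‖a n‖ ^ 2) * ∑ n ∈ B, ‖b n‖ ^ 2 := by
  rw [Finset.sum_mul_sum, Finset.sum_product]
  refine sum_congr rfl fun n _ => sum_congr rfl fun m _ => ?_
  rw [norm_mul, mul_pow]

/-- the general estimate: number of classes times `log³` -/
theorem gen (hker : S_KER) (hrow : S_ROW) (hcla : S_CLA) (φ : ℝ → ℝ) (hφ : Ph φ) :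
    ∃ c₀ C₃ C : ℝ, 0 < c₀ ∧ 0 < C₃ ∧ 0 < C ∧ ∀ (N K₀ : ℕ) (Z : Finset (ℤ × ℤ)) (c : ℤ × ℤ → ℂ),
      1 ≤ N → 2 + C₃ * (N : ℝ) ^ (1 / 3 : ℝ) ≤ K₀ → (∀ z ∈ Z, |z.1| ≤ N ∧ |z.2| ≤ N) →
      ∫ x in (-1 : ℝ)..1, ‖∑ z ∈ Z, c z * ph φ z x‖ ^ 2 ≤
        ((Z.image (fun z => cls c₀ K₀ (wz z))).card : ℝ) * (C * (1 + Real.log N) ^ 3) *
          ∑ z ∈ Z, ‖c z‖ ^ 2 := by
  obtain ⟨C₁, Ck, hkb⟩ := hker φ hφ
  obtain ⟨c₀, C₃, C, hc₀, hC₃, hC, h⟩ := hrow φ C₁ Ck hkb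
  refine ⟨c₀, C₃, C, hc₀, hC₃, hC, fun N K₀ Z c hN hK hZ => ?_⟩
  have hl : 0 ≤ Real.log N := Real.log_natCast_nonneg N
  exact hcla _ φ Z c (C * (1 + Real.log N) ^ 3) (fun z => cls c₀ K₀ (wz z))
    hφ.smooth.continuous (by positivity) (fun z hz => h N K₀ Z hN hK hZ z hz)

theorem exists_K (C₃ : ℝ) (hC₃ : 0 < C₃) (N : ℕ) (hN : 1 ≤ N) :
    ∃ K₀ : ℕ, 1 ≤ K₀ ∧ 2 + C₃ * (N : ℝ) ^ (1 / 3 : ℝ) ≤ K₀ ∧
      (K₀ : ℝ) ≤ (3 + C₃) * (N : ℝ) ^ (1 / 3 : ℝ) := by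
  have hN1 : (1 : ℝ) ≤ (N : ℝ) := by exact_mod_cast hN
  have h1 : (1 : ℝ) ≤ (N : ℝ) ^ (1 / 3 : ℝ) := Real.one_le_rpow hN1 (by norm_num)
  have h0 : 0 ≤ 2 + C₃ * (N : ℝ) ^ (1 / 3 : ℝ) := by positivity
  refine ⟨⌈2 + C₃ * (N : ℝ) ^ (1 / 3 : ℝ)⌉₊, ?_, Nat.le_ceil _, ?_⟩
  · rw [Nat.one_le_ceil_iff]
    positivity
  · have h2 := Nat.ceil_lt_add_one h0
    nlinarith

/-- the fourth power form of both parts -/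
theorem fourth (hker : S_KER) (hrow : S_ROW) (hcla : S_CLA) (hnc1 : S_NC1) (φ : ℝ → ℝ) (hφ : Ph φ) :
    ∃ C : ℝ, 0 < C ∧ ∀ (N : ℕ) (a : ℤ → ℂ), 1 ≤ N →
      ∫ x in (-1 : ℝ)..1, ‖F φ (Icc (-(N : ℤ)) N) a x‖ ^ 4 ≤
        C * (N : ℝ) ^ (1 / 3 : ℝ) * (1 + Real.log N) ^ 5 *
          (∑ n ∈ Icc (-(N : ℤ)) N, ‖a n‖ ^ 2) ^ 2 := by
  obtain ⟨c₀, C₃, C, hc₀, hC₃, hC, h⟩ := gen hker hrow hcla φ hφ
  refine ⟨100 * (3 + C₃) * C, by positivity, fun N a hN => ?_⟩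
  obtain ⟨K₀, hK1, hK2, hK3⟩ := exists_K C₃ hC₃ N hN
  set I := Icc (-(N : ℤ)) N with hI
  have hbox : ∀ z ∈ I ×ˢ I, |z.1| ≤ (N : ℤ) ∧ |z.2| ≤ (N : ℤ) := by
    intro z hz
    rw [mem_product, hI, mem_Icc, mem_Icc] at hz
    exact ⟨abs_le.2 hz.1, abs_le.2 hz.2⟩
  have h1 := h N K₀ (I ×ˢ I) (fun z => a z.1 * a z.2) hN hK2 hbox
  have h2 := hnc1 c₀ N K₀ (I ×ˢ I) hN hK1 hbox
  have hl : 0 ≤ Real.log N := Real.log_natCast_nonneg N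
  have e1 : ∀ x, ‖F φ I a x‖ ^ 4 = ‖∑ z ∈ I ×ˢ I, (a z.1 * a z.2) * ph φ z x‖ ^ 2 := by
    intro x
    rw [← F_mul, norm_mul]
    ring
  simp_rw [e1]
  rw [sum_sq_prod] at h1
  set S := ∑ n ∈ I, ‖a n‖ ^ 2 with hS
  have hS0 : 0 ≤ S := sum_nonneg fun n _ => by positivity
  have h3 : ((((I ×ˢ I).image (fun z => cls c₀ K₀ (wz z))).card : ℕ) : ℝ) ≤
      100 * (1 + Real.log N) ^ 2 * ((3 + C₃) * (N : ℝ) ^ (1 / 3 : ℝ)) :=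
    h2.trans (mul_le_mul_of_nonneg_left hK3 (by positivity))
  refine h1.trans ?_
  calc _ ≤ 100 * (1 + Real.log N) ^ 2 * ((3 + C₃) * (N : ℝ) ^ (1 / 3 : ℝ)) *
        (C * (1 + Real.log N) ^ 3) * (S * S) := by gcongr
    _ = _ := by ring

/-- part (1), in terms of norms -/
theorem part1 (hker : S_KER) (hrow : S_ROW) (hcla : S_CLA) (hnc1 : S_NC1) (φ : ℝ → ℝ) (hφ : Ph φ) :
    ∃ C : ℝ, 0 < C ∧ ∀ (N : ℕ) (a : ℤ → ℂ), 1 ≤ N →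
      (∫ x in (-1 : ℝ)..1, ‖F φ (Icc (-(N : ℤ)) N) a x‖ ^ 4) ^ (1 / 4 : ℝ) ≤
        C * (N : ℝ) ^ (1 / 12 : ℝ) * (1 + Real.log N) ^ (5 / 4 : ℝ) *
          Real.sqrt (∑ n ∈ Icc (-(N : ℤ)) N, ‖a n‖ ^ 2) := by
  obtain ⟨C, hC, h⟩ := fourth hker hrow hcla hnc1 φ hφ
  refine ⟨C ^ (1 / 4 : ℝ), by positivity, fun N a hN => ?_⟩
  have h1 := h N a hN
  have hl : 0 ≤ Real.log N := Real.log_natCast_nonneg N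
  have hl1 : 0 ≤ 1 + Real.log N := by linarith
  set S := ∑ n ∈ Icc (-(N : ℤ)) N, ‖a n‖ ^ 2 with hS
  have hS0 : 0 ≤ S := sum_nonneg fun n _ => by positivity
  have hN0 : (0 : ℝ) ≤ N := Nat.cast_nonneg N
  have hI0 : 0 ≤ ∫ x in (-1 : ℝ)..1, ‖F φ (Icc (-(N : ℤ)) N) a x‖ ^ 4 :=
    intervalIntegral.integral_nonneg (by norm_num) fun x _ => by positivity
  refine (Real.rpow_le_rpow hI0 h1 (by norm_num)).trans (le_of_eq ?_)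
  rw [Real.mul_rpow (by positivity) (by positivity), Real.mul_rpow (by positivity) (by positivity),
    Real.mul_rpow (by positivity) (by positivity)]
  congr 1
  · congr 1
    · congr 1
      rw [← Real.rpow_mul hN0]
      norm_num
    · rw [← Real.rpow_natCast, ← Real.rpow_mul hl1]
      norm_num
  · rw [Real.sqrt_eq_rpow, ← Real.rpow_natCast, ← Real.rpow_mul hS0]
    norm_num

/-- part (2) -/
theorem part2 (hker : S_KER) (hrow : S_ROW) (hcla : S_CLA) (hnc2 : S_NC2) (φ : ℝ → ℝ) (hφ : Ph φ) :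
    ∀ η : ℝ, 0 < η → ∃ C : ℝ, 0 < C ∧ ∀ (N : ℕ) (A B : Finset ℤ) (a b : ℤ → ℂ), 1 ≤ N →
      (∀ n ∈ A, |n| ≤ N) → (∀ n ∈ B, |n| ≤ N) →
      (∀ n ∈ A, ∀ n' ∈ A, |(n : ℝ) - n'| ≤ (N : ℝ) ^ (2 / 3 : ℝ)) →
      (∀ n ∈ B, ∀ n' ∈ B, |(n : ℝ) - n'| ≤ (N : ℝ) ^ (2 / 3 : ℝ)) →
      (∀ n ∈ A, ∀ n' ∈ B, η * N ≤ |(n : ℝ) - n'|) →
      ∫ x in (-1 : ℝ)..1, ‖F φ A a x * F φ B b x‖ ^ 2 ≤
        C * (1 + Real.log N) ^ 3 * ((∑ n ∈ A, ‖a n‖ ^ 2) * ∑ n ∈ B, ‖b n‖ ^ 2) := by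
  intro η hη
  obtain ⟨c₀, C₃, C, hc₀, hC₃, hC, h⟩ := gen hker hrow hcla φ hφ
  obtain ⟨C', hC', h2⟩ := hnc2 c₀ η hc₀ hη
  refine ⟨C' * C, by positivity, fun N A B a b hN hA hB hA2 hB2 hAB => ?_⟩
  obtain ⟨K₀, hK1, hK2, -⟩ := exists_K C₃ hC₃ N hN
  have hbox : ∀ z ∈ A ×ˢ B, |z.1| ≤ (N : ℤ) ∧ |z.2| ≤ (N : ℤ) := by
    intro z hz
    rw [mem_product] at hz
    exact ⟨hA _ hz.1, hB _ hz.2⟩
  have h1 := h N K₀ (A ×ˢ B) (fun z => a z.1 * b z.2) hN hK2 hbox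
  have h3 := h2 N K₀ A B hN hA hB hA2 hB2 hAB
  have hl : 0 ≤ Real.log N := Real.log_natCast_nonneg N
  simp_rw [F_mul]
  rw [sum_sq_prod] at h1
  have hS0 : 0 ≤ (∑ n ∈ A, ‖a n‖ ^ 2) * ∑ n ∈ B, ‖b n‖ ^ 2 :=
    mul_nonneg (sum_nonneg fun n _ => by positivity) (sum_nonneg fun n _ => by positivity)
  refine h1.trans ?_
  calc _ ≤ C' * (C * (1 + Real.log N) ^ 3) * ((∑ n ∈ A, ‖a n‖ ^ 2) * ∑ n ∈ B, ‖b n‖ ^ 2) := by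
        gcongr
    _ = _ := by ring

end Pool.Agent.H79.QN
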