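import Pool.Agent.H71.QN.NC2
import Pool.Agent.H79.QN.Main

/-!
# Number of classes for separated sets of diameter `R` (adapted from helper71's row NC2), and the product estimate
-/

set_option autoImplicit false

namespace Pool.Agent.H79.QN

open Finset

theorem nc3 (c₀ η : ℝ) (hc : 0 < c₀) (hη : 0 < η) : ∃ C : ℝ, 0 < C ∧ ∀ (N K₀ : ℕ) (A B : Finset ℤ) (R : ℝ),
    1 ≤ N → 0 ≤ R → (∀ n ∈ A, |n| ≤ N) → (∀ n ∈ B, |n| ≤ N) →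
    (∀ n ∈ A, ∀ n' ∈ A, |(n : ℝ) - n'| ≤ R) → (∀ n ∈ B, ∀ n' ∈ B, |(n : ℝ) - n'| ≤ R) →
    (∀ n ∈ A, ∀ n' ∈ B, η * N ≤ |(n : ℝ) - n'|) →
    (((A ×ˢ B).image (fun z => cls c₀ K₀ (wz z))).card : ℝ) ≤ C * (1 + R / (N : ℝ) ^ (2 / 3 : ℝ)) := by
  obtain ⟨M, hM⟩ := pow_unbounded_of_one_lt (6 / η) (by norm_num : (1 : ℝ) < 2)
  obtain ⟨M', hM'⟩ := pow_unbounded_of_one_lt (20 / η ^ 2) (by norm_num : (1 : ℝ) < 4)
  refine ⟨4 * ((2 * (M : ℝ) + 1) * (2 * M' + 1)) * (5 + 4 / (c₀ * η ^ 2 / 12)), by positivity, ?_⟩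
  intro N K₀ A B R hN hR hA hB hdA hdB hsep
  classical
  have hN0 : (0 : ℝ) < N := by exact_mod_cast hN
  have hXX0 : 0 < (N : ℝ) ^ (2 / 3 : ℝ) := Real.rpow_pos_of_pos hN0 _
  set X : ℝ := (N : ℝ) ^ (2 / 3 : ℝ) with hXdef
  set D : ℕ := ⌊2 * R / (c₀ * η ^ 2 / 12 * X) + 1⌋₊ + 1 with hDdef
  have hD : 2 * R / (c₀ * η ^ 2 / 12 * X) + 1 < D := by
    rw [hDdef]
    push_cast
    exact Nat.lt_floor_add_one _
  have hD2 : (D : ℝ) ≤ 2 * R / (c₀ * η ^ 2 / 12 * X) + 2 := by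
    rw [hDdef]
    push_cast
    have := Nat.floor_le (show 0 ≤ 2 * R / (c₀ * η ^ 2 / 12 * X) + 1 by positivity)
    linarith
  rcases (A ×ˢ B).eq_empty_or_nonempty with h | ⟨z₀, hz₀⟩
  · rw [h, image_empty, card_empty]
    push_cast
    positivity
  have hfac : ∀ z ∈ A ×ˢ B, (2 : ℝ) ^ iOf (wz z) ≤ 3 * N ∧ η * N < 2 * 2 ^ iOf (wz z) ∧
      (4 : ℝ) ^ jOf (wz z) ≤ 5 * (N : ℝ) ^ 2 ∧ η ^ 2 * (N : ℝ) ^ 2 < 4 * 4 ^ jOf (wz z) := by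
    intro z hz
    obtain ⟨h1, h2⟩ := mem_product.1 hz
    exact nc2_size η N hN z hη (hA _ h1) (hB _ h2) (hsep _ h1 _ h2)
  have hi : ∀ z ∈ A ×ˢ B, ∀ z' ∈ A ×ˢ B, iOf (wz z) ≤ iOf (wz z') + M := by
    intro z hz z' hz'
    have h1 := (hfac z hz).1
    have h2 := (hfac z' hz').2.1
    have h3 : (2 : ℝ) ^ iOf (wz z) < 2 ^ (iOf (wz z') + M) := by
      rw [pow_add]
      have h4 : (N : ℝ) < 2 * 2 ^ iOf (wz z') / η := by
        rw [lt_div_iff₀ hη]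
        linarith
      calc (2 : ℝ) ^ iOf (wz z) ≤ 3 * N := h1
        _ < 3 * (2 * 2 ^ iOf (wz z') / η) := by linarith
        _ = 2 ^ iOf (wz z') * (6 / η) := by ring
        _ ≤ 2 ^ iOf (wz z') * 2 ^ M := mul_le_mul_of_nonneg_left hM.le (by positivity)
    exact ((pow_lt_pow_iff_right₀ (by norm_num : (1 : ℝ) < 2)).1 h3).le
  have hj : ∀ z ∈ A ×ˢ B, ∀ z' ∈ A ×ˢ B, jOf (wz z) ≤ jOf (wz z') + M' := by
    intro z hz z' hz'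
    have h1 := (hfac z hz).2.2.1
    have h2 := (hfac z' hz').2.2.2
    have h3 : (4 : ℝ) ^ jOf (wz z) < 4 ^ (jOf (wz z') + M') := by
      rw [pow_add]
      have h4 : (N : ℝ) ^ 2 < 4 * 4 ^ jOf (wz z') / η ^ 2 := by
        rw [lt_div_iff₀ (by positivity)]
        linarith
      calc (4 : ℝ) ^ jOf (wz z) ≤ 5 * (N : ℝ) ^ 2 := h1
        _ < 5 * (4 * 4 ^ jOf (wz z') / η ^ 2) := by linarith
        _ = 4 ^ jOf (wz z') * (20 / η ^ 2) := by ring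
        _ ≤ 4 ^ jOf (wz z') * 4 ^ M' := mul_le_mul_of_nonneg_left hM'.le (by positivity)
    exact ((pow_lt_pow_iff_right₀ (by norm_num : (1 : ℝ) < 4)).1 h3).le
  -- the map
  let g : (Bool × Bool) × (ℕ × ℕ) × ℤ → (Bool × Bool) × (ℕ × ℕ) × ℤ := fun q =>
    (q.1, q.2.1, (⌊((wz z₀).1 : ℝ) / Lb c₀ q.2.1.1 q.2.1.2⌋ + q.2.2) % (K₀ : ℤ))
  let T : Finset ((Bool × Bool) × (ℕ × ℕ) × ℤ) := univ ×ˢ
    ((Icc (iOf (wz z₀) - M) (iOf (wz z₀) + M) ×ˢ Icc (jOf (wz z₀) - M') (jOf (wz z₀) + M')) ×ˢ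
      Icc (-(D : ℤ)) D)
  have hsub : (A ×ˢ B).image (fun z => cls c₀ K₀ (wz z)) ⊆ T.image g := by
    intro x hx
    obtain ⟨z, hz, rfl⟩ := mem_image.1 hx
    set L := Lb c₀ (iOf (wz z)) (jOf (wz z)) with hL
    have hLb : c₀ * η ^ 2 / 12 * X ≤ L :=
      nc2_Lb c₀ η N _ _ hc hη hN (hfac z hz).2.1 (hfac z hz).2.2.1
    have hc0 : 0 < c₀ * η ^ 2 / 12 := by positivity
    have hL0 : 0 < L := lt_of_lt_of_le (by positivity) hLb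
    have hs : |((wz z).1 : ℝ) - (wz z₀).1| ≤ 2 * R := by
      obtain ⟨h1, h2⟩ := mem_product.1 hz
      obtain ⟨h3, h4⟩ := mem_product.1 hz₀
      have e : ((wz z).1 : ℝ) - (wz z₀).1 = ((z.1 : ℝ) - z₀.1) + ((z.2 : ℝ) - z₀.2) := by
        simp only [wz]
        push_cast
        ring
      rw [e]
      refine (abs_add_le _ _).trans ?_
      have := hdA _ h1 _ h3
      have := hdB _ h2 _ h4
      linarith
    have hfl : ⌊((wz z).1 : ℝ) / L⌋ - ⌊((wz z₀).1 : ℝ) / L⌋ ∈ Icc (-(D : ℤ)) D := by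
      apply nc2_floor
      rw [← sub_div, abs_div, abs_of_pos hL0]
      have h1 : |((wz z).1 : ℝ) - (wz z₀).1| / L ≤ 2 * R / (c₀ * η ^ 2 / 12 * X) := by
        gcongr
      linarith
    refine mem_image.2 ⟨((decide (0 ≤ (wz z).1), decide (0 ≤ (wz z).2)),
      (iOf (wz z), jOf (wz z)), ⌊((wz z).1 : ℝ) / L⌋ - ⌊((wz z₀).1 : ℝ) / L⌋), ?_, ?_⟩
    · refine mem_product.2 ⟨mem_univ _, mem_product.2 ⟨mem_product.2 ⟨?_, ?_⟩, hfl⟩⟩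
      · change iOf (wz z) ∈ _
        rw [mem_Icc]
        have := hi z hz z₀ hz₀
        have := hi z₀ hz₀ z hz
        constructor <;> omega
      · change jOf (wz z) ∈ _
        rw [mem_Icc]
        have := hj z hz z₀ hz₀
        have := hj z₀ hz₀ z hz
        constructor <;> omega
    · simp only [g, cls]
      rw [← hL]
      congr 3
      ring
  have hcard : ((A ×ˢ B).image (fun z => cls c₀ K₀ (wz z))).card ≤
      4 * ((2 * M + 1) * (2 * M' + 1) * (2 * D + 1)) := by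
    refine (card_le_card hsub).trans (card_image_le.trans ?_)
    simp only [T]
    rw [card_product, card_product, card_product, Nat.card_Icc, Nat.card_Icc, Int.card_Icc]
    have e1 : (univ : Finset (Bool × Bool)).card = 4 := by decide
    rw [e1]
    have e2 : iOf (wz z₀) + M + 1 - (iOf (wz z₀) - M) ≤ 2 * M + 1 := by omega
    have e3 : jOf (wz z₀) + M' + 1 - (jOf (wz z₀) - M') ≤ 2 * M' + 1 := by omega
    have e4 : ((D : ℤ) + 1 - -(D : ℤ)).toNat ≤ 2 * D + 1 := by omega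
    exact Nat.mul_le_mul_left 4 (Nat.mul_le_mul (Nat.mul_le_mul e2 e3) e4)
  have hcard' : (((A ×ˢ B).image (fun z => cls c₀ K₀ (wz z))).card : ℝ) ≤
      4 * ((2 * (M : ℝ) + 1) * (2 * M' + 1) * (2 * D + 1)) := by exact_mod_cast hcard
  refine hcard'.trans ?_
  have hc0 : 0 < c₀ * η ^ 2 / 12 := by positivity
  have h5 : 2 * (D : ℝ) + 1 ≤ (5 + 4 / (c₀ * η ^ 2 / 12)) * (1 + R / X) := by
    have e : (5 + 4 / (c₀ * η ^ 2 / 12)) * (1 + R / X) =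
        5 + 4 / (c₀ * η ^ 2 / 12) + 5 * (R / X) + 2 * (2 * R / (c₀ * η ^ 2 / 12 * X)) := by
      field_simp
      ring
    have h6 : 0 ≤ 4 / (c₀ * η ^ 2 / 12) := by positivity
    have h7 : 0 ≤ 5 * (R / X) := by positivity
    rw [e]
    linarith
  calc 4 * ((2 * (M : ℝ) + 1) * (2 * M' + 1) * (2 * D + 1))
      ≤ 4 * ((2 * (M : ℝ) + 1) * (2 * M' + 1) * ((5 + 4 / (c₀ * η ^ 2 / 12)) * (1 + R / X))) := by
        gcongr
    _ = _ := by ring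

/-- products of sums over separated sets of diameter at most `R` -/
theorem part2' (hker : S_KER) (hrow : S_ROW) (hcla : S_CLA) (φ : ℝ → ℝ) (hφ : Ph φ) :
    ∀ η : ℝ, 0 < η → ∃ C : ℝ, 0 < C ∧ ∀ (N : ℕ) (R : ℝ) (A B : Finset ℤ) (a b : ℤ → ℂ), 1 ≤ N → 0 ≤ R →
      (∀ n ∈ A, |n| ≤ N) → (∀ n ∈ B, |n| ≤ N) →
      (∀ n ∈ A, ∀ n' ∈ A, |(n : ℝ) - n'| ≤ R) → (∀ n ∈ B, ∀ n' ∈ B, |(n : ℝ) - n'| ≤ R) →
      (∀ n ∈ A, ∀ n' ∈ B, η * N ≤ |(n : ℝ) - n'|) →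
      ∫ x in (-1 : ℝ)..1, ‖F φ A a x * F φ B b x‖ ^ 2 ≤
        C * (1 + R / (N : ℝ) ^ (2 / 3 : ℝ)) * (1 + Real.log N) ^ 3 *
          ((∑ n ∈ A, ‖a n‖ ^ 2) * ∑ n ∈ B, ‖b n‖ ^ 2) := by
  intro η hη
  obtain ⟨c₀, C₃, C, hc₀, hC₃, hC, h⟩ := gen hker hrow hcla φ hφ
  obtain ⟨C', hC', h2⟩ := nc3 c₀ η hc₀ hη
  refine ⟨C' * C, by positivity, fun N R A B a b hN hR hA hB hA2 hB2 hAB => ?_⟩
  obtain ⟨K₀, hK1, hK2, -⟩ := exists_K C₃ hC₃ N hN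
  have hbox : ∀ z ∈ A ×ˢ B, |z.1| ≤ (N : ℤ) ∧ |z.2| ≤ (N : ℤ) := by
    intro z hz
    rw [mem_product] at hz
    exact ⟨hA _ hz.1, hB _ hz.2⟩
  have h1 := h N K₀ (A ×ˢ B) (fun z => a z.1 * b z.2) hN hK2 hbox
  have h3 := h2 N K₀ A B R hN hR hA hB hA2 hB2 hAB
  have hl : 0 ≤ Real.log N := Real.log_natCast_nonneg N
  simp_rw [F_mul]
  rw [sum_sq_prod] at h1
  have hS0 : 0 ≤ (∑ n ∈ A, ‖a n‖ ^ 2) * ∑ n ∈ B, ‖b n‖ ^ 2 :=
    mul_nonneg (sum_nonneg fun n _ => by positivity) (sum_nonneg fun n _ => by positivity)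
  have hX : 0 ≤ 1 + R / (N : ℝ) ^ (2 / 3 : ℝ) := by positivity
  refine h1.trans ?_
  calc _ ≤ C' * (1 + R / (N : ℝ) ^ (2 / 3 : ℝ)) * (C * (1 + Real.log N) ^ 3) *
        ((∑ n ∈ A, ‖a n‖ ^ 2) * ∑ n ∈ B, ‖b n‖ ^ 2) := by
        gcongr
    _ = _ := by ring

end Pool.Agent.H79.QN
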