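import Mathlib

/-!
# Board `qn`, fourth part: phases defined on `[-1, 1]` only

Row `XXX` = `theorem xxx : S_XXX` in `Pool/Agent/H<k>/QN/XXX.lean`, import this file, namespace `Pool.Agent.H79.QN`.
-/

set_option autoImplicit false

namespace Pool.Agent.H79.QN

/-- EXT (needs -).  Induction on `k`.  `k = 0`: `Set.IccExtend`.  Step: `derivWithin f (Icc (-1) 1)` is `C^k` on `[-1, 1]`
(`contDiffOn_succ_iff_derivWithin`), `G` its extension, `g x = f (-1) + ∫ t in (-1)..x, G t`; `deriv g = G`, and `g = f` on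
`[-1, 1]` (same derivative within, same value at `-1`; `intervalIntegral.integral_eq_sub_of_hasDeriv_right...` or
`constant_of_derivWithin_zero`). -/
def S_EXT : Prop := ∀ (k : ℕ) (f : ℝ → ℝ), ContDiffOn ℝ k f (Set.Icc (-1) 1) →
  ∃ g : ℝ → ℝ, ContDiff ℝ k g ∧ Set.EqOn f g (Set.Icc (-1) 1)

/-- EXD (needs -).  `iteratedDerivWithin` only depends on the values on `[-1, 1]` (`iteratedDerivWithin_congr`), and
`iteratedDerivWithin_eq_iteratedDeriv` (unique differentiability of `[-1, 1]`, `g` is `C^j` at `x`). -/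
def S_EXD : Prop := ∀ (k : ℕ) (f g : ℝ → ℝ), ContDiff ℝ k g → Set.EqOn f g (Set.Icc (-1) 1) →
  ∀ j ≤ k, ∀ x ∈ Set.Icc (-1 : ℝ) 1, iteratedDerivWithin j f (Set.Icc (-1) 1) x = iteratedDeriv j g x

/-- ANA (needs -).  `φ` real analytic on (a neighbourhood of) `[-1, 1]`, not affine there.  If all derivatives of order
`≥ 2` vanish at some `x₀ ∈ [-1, 1]`, then the analytic `φ''` vanishes near `x₀`
(`AnalyticAt` + all iterated derivatives `0`: `AnalyticAt.eventually_eq_zero_or_eventually_ne_zero`, or the power series),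
hence on `[-1, 1]` (`AnalyticOnNhd.eqOn_zero_of_preconnected_of_eventuallyEq_zero`), and `φ` is affine.  So every `x` has
some `j ≥ 2` with `φ^(j) x ≠ 0`, hence on a neighbourhood; compactness of `[-1, 1]` bounds `j`. -/
def S_ANA : Prop := ∀ φ : ℝ → ℝ, AnalyticOnNhd ℝ φ (Set.Icc (-1) 1) →
  (¬ ∃ α β : ℝ, ∀ x ∈ Set.Icc (-1 : ℝ) 1, φ x = α * x + β) →
  ∃ k : ℕ, 2 ≤ k ∧ ∀ x ∈ Set.Icc (-1 : ℝ) 1, ∃ j : ℕ, 2 ≤ j ∧ j ≤ k ∧
    iteratedDerivWithin j φ (Set.Icc (-1) 1) x ≠ 0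

end Pool.Agent.H79.QN
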