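import Pool.Agent.H79.QN.Final
import Pool.Agent.H79.QN.Sep
import Pool.Agent.H79.QN.Stmts4

/-!
# Board `qn`: phases defined on `[-1, 1]`
-/

set_option autoImplicit false

namespace Pool.Agent.H79.QN

open Finset MeasureTheory

/-- extension of a phase of finite type -/
theorem to_FT (hext : S_EXT) (hexd : S_EXD) (k : ℕ) (hk : 2 ≤ k) (φ : ℝ → ℝ)
    (h1 : ContDiffOn ℝ k φ (Set.Icc (-1) 1))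
    (h2 : ∀ x ∈ Set.Icc (-1 : ℝ) 1, derivWithin φ (Set.Icc (-1) 1) x ≠ 0)
    (h3 : ∀ x ∈ Set.Icc (-1 : ℝ) 1, ∃ j : ℕ, 2 ≤ j ∧ j ≤ k ∧
      iteratedDerivWithin j φ (Set.Icc (-1) 1) x ≠ 0) :
    ∃ g : ℝ → ℝ, FT k g ∧ Set.EqOn φ g (Set.Icc (-1) 1) := by
  obtain ⟨g, hg, he⟩ := hext k φ h1
  refine ⟨g, ⟨hg, fun x hx => ?_, fun x hx => ?_⟩, he⟩
  · have h := hexd k φ g hg he 1 (by omega) x hx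
    rw [iteratedDerivWithin_one, iteratedDeriv_one] at h
    rw [← h]
    exact h2 x hx
  · obtain ⟨j, hj2, hjk, hj⟩ := h3 x hx
    refine ⟨j, hj2, hjk, ?_⟩
    rw [← hexd k φ g hg he j hjk x hx]
    exact hj

theorem ph_of_FT (φ : ℝ → ℝ) (h : FT 2 φ) : Ph φ := by
  refine ⟨by exact_mod_cast h.smooth, h.d1, fun x hx => ?_⟩
  obtain ⟨j, hj2, hjk, hj⟩ := h.ft x hx
  have hj' : j = 2 := by omega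
  subst hj'
  rw [iteratedDeriv_succ, iteratedDeriv_one] at hj
  exact hj

theorem F_congr (φ g : ℝ → ℝ) (he : Set.EqOn φ g (Set.Icc (-1) 1)) (A : Finset ℤ) (a : ℤ → ℂ) :
    Set.EqOn (F φ A a) (F g A a) (Set.Icc (-1) 1) := by
  intro x hx
  unfold F
  rw [he hx]

theorem int4_congr (φ g : ℝ → ℝ) (he : Set.EqOn φ g (Set.Icc (-1) 1)) (A : Finset ℤ) (a : ℤ → ℂ) :
    ∫ x in (-1 : ℝ)..1, ‖F φ A a x‖ ^ 4 = ∫ x in (-1 : ℝ)..1, ‖F g A a x‖ ^ 4 := by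
  refine intervalIntegral.integral_congr fun x hx => ?_
  rw [Set.uIcc_of_le (by norm_num : (-1 : ℝ) ≤ 1)] at hx
  rw [F_congr φ g he A a hx]

/-- part (a) -/
theorem fin_a (hext : S_EXT) (hexd : S_EXD) (k : ℕ) (hk : 2 ≤ k) (φ : ℝ → ℝ)
    (h1 : ContDiffOn ℝ k φ (Set.Icc (-1) 1))
    (h2 : ∀ x ∈ Set.Icc (-1 : ℝ) 1, derivWithin φ (Set.Icc (-1) 1) x ≠ 0)
    (h3 : ∀ x ∈ Set.Icc (-1 : ℝ) 1, ∃ j : ℕ, 2 ≤ j ∧ j ≤ k ∧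
      iteratedDerivWithin j φ (Set.Icc (-1) 1) x ≠ 0) (ε : ℝ) (hε : 0 < ε) :
    ∃ C : ℝ, 0 < C ∧ ∀ (N : ℕ) (a : ℤ → ℂ), 1 ≤ N →
      (∫ x in (-1 : ℝ)..1, ‖F φ (Icc (-(N : ℤ)) N) a x‖ ^ 4) ^ (1 / 4 : ℝ) ≤
        C * (N : ℝ) ^ (1 / 8 - 1 / (12 * k) + ε : ℝ) *
          Real.sqrt (∑ n ∈ Icc (-(N : ℤ)) N, ‖a n‖ ^ 2) := by
  obtain ⟨g, hg, he⟩ := to_FT hext hexd k hk φ h1 h2 h3
  obtain ⟨C, hC, h⟩ := part3 kej_all rog_all clj nc1 ftz_all ind blk_all dyd pwm k hk g hg ε hε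
  refine ⟨C, hC, fun N a hN => ?_⟩
  rw [int4_congr φ g he]
  exact h N a hN

/-- part (b) -/
theorem fin_b (hext : S_EXT) (hexd : S_EXD) (φ : ℝ → ℝ)
    (h1 : ContDiffOn ℝ 2 φ (Set.Icc (-1) 1))
    (h2 : ∀ x ∈ Set.Icc (-1 : ℝ) 1, derivWithin φ (Set.Icc (-1) 1) x ≠ 0)
    (h3 : ∀ x ∈ Set.Icc (-1 : ℝ) 1, ∃ j : ℕ, 2 ≤ j ∧ j ≤ 2 ∧
      iteratedDerivWithin j φ (Set.Icc (-1) 1) x ≠ 0) :
    ∃ C : ℝ, 0 < C ∧ ∀ (N : ℕ) (a : ℤ → ℂ), 1 ≤ N →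
      (∫ x in (-1 : ℝ)..1, ‖F φ (Icc (-(N : ℤ)) N) a x‖ ^ 4) ^ (1 / 4 : ℝ) ≤
        C * (N : ℝ) ^ (1 / 12 : ℝ) * (1 + Real.log N) ^ (5 / 4 : ℝ) *
          Real.sqrt (∑ n ∈ Icc (-(N : ℤ)) N, ‖a n‖ ^ 2) := by
  obtain ⟨g, hg, he⟩ := to_FT hext hexd 2 le_rfl φ h1 h2 h3
  obtain ⟨C, hC, h⟩ := part1 ker_all row_all cla_all nc1 g (ph_of_FT g hg)
  refine ⟨C, hC, fun N a hN => ?_⟩
  rw [int4_congr φ g he]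
  exact h N a hN

/-- part (c) -/
theorem fin_c (hext : S_EXT) (hexd : S_EXD) (hana : S_ANA) (φ : ℝ → ℝ)
    (h1 : AnalyticOnNhd ℝ φ (Set.Icc (-1) 1))
    (h2 : ∀ x ∈ Set.Icc (-1 : ℝ) 1, deriv φ x ≠ 0)
    (h3 : ¬ ∃ α β : ℝ, ∀ x ∈ Set.Icc (-1 : ℝ) 1, φ x = α * x + β) :
    ∃ δ : ℝ, 0 < δ ∧ ∃ C : ℝ, 0 < C ∧ ∀ (N : ℕ) (a : ℤ → ℂ), 1 ≤ N →
      (∫ x in (-1 : ℝ)..1, ‖F φ (Icc (-(N : ℤ)) N) a x‖ ^ 4) ^ (1 / 4 : ℝ) ≤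
        C * (N : ℝ) ^ (1 / 8 - δ : ℝ) *
          Real.sqrt (∑ n ∈ Icc (-(N : ℤ)) N, ‖a n‖ ^ 2) := by
  obtain ⟨k, hk, h4⟩ := hana φ h1 h3
  have hk0 : (0 : ℝ) < k := by exact_mod_cast (by omega : 0 < k)
  have hu : UniqueDiffOn ℝ (Set.Icc (-1 : ℝ) 1) := uniqueDiffOn_Icc (by norm_num)
  obtain ⟨C, hC, h⟩ := fin_a hext hexd k hk φ (h1.contDiffOn hu) (fun x hx => by
    rw [(h1 x hx).differentiableAt.derivWithin (hu x hx)]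
    exact h2 x hx) h4 (1 / (24 * k)) (by positivity)
  refine ⟨1 / (24 * k), by positivity, C, hC, fun N a hN => ?_⟩
  refine (h N a hN).trans (le_of_eq ?_)
  congr 3
  field_simp
  ring

/-- products -/
theorem fin_sep (hext : S_EXT) (hexd : S_EXD) (φ : ℝ → ℝ)
    (h1 : ContDiffOn ℝ 2 φ (Set.Icc (-1) 1))
    (h2 : ∀ x ∈ Set.Icc (-1 : ℝ) 1, derivWithin φ (Set.Icc (-1) 1) x ≠ 0)
    (h3 : ∀ x ∈ Set.Icc (-1 : ℝ) 1, derivWithin (derivWithin φ (Set.Icc (-1) 1)) (Set.Icc (-1) 1) x ≠ 0)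
    (η : ℝ) (hη : 0 < η) :
    ∃ C : ℝ, 0 < C ∧ ∀ (N : ℕ) (R : ℝ) (A B : Finset ℤ) (a b : ℤ → ℂ), 1 ≤ N → 0 ≤ R →
      (∀ n ∈ A, |n| ≤ N) → (∀ n ∈ B, |n| ≤ N) →
      (∀ n ∈ A, ∀ n' ∈ A, |(n : ℝ) - n'| ≤ R) → (∀ n ∈ B, ∀ n' ∈ B, |(n : ℝ) - n'| ≤ R) →
      (∀ n ∈ A, ∀ n' ∈ B, η * N ≤ |(n : ℝ) - n'|) →
      ∫ x in (-1 : ℝ)..1, ‖F φ A a x‖ ^ 2 * ‖F φ B b x‖ ^ 2 ≤
        C * (1 + R / (N : ℝ) ^ (2 / 3 : ℝ)) * (1 + Real.log N) ^ 3 *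
          (∑ n ∈ A, ‖a n‖ ^ 2) * ∑ n ∈ B, ‖b n‖ ^ 2 := by
  obtain ⟨g, hg, he⟩ := to_FT hext hexd 2 le_rfl φ h1 h2 (fun x hx => ⟨2, le_rfl, le_rfl, by
    rw [show (2 : ℕ) = 1 + 1 from rfl, iteratedDerivWithin_succ, iteratedDerivWithin_one]
    exact h3 x hx⟩)
  obtain ⟨C, hC, h⟩ := part2' ker_all row_all cla_all g (ph_of_FT g hg) η hη
  refine ⟨C, hC, fun N R A B a b hN hR hA hB hA2 hB2 hAB => ?_⟩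
  have e1 : ∫ x in (-1 : ℝ)..1, ‖F φ A a x‖ ^ 2 * ‖F φ B b x‖ ^ 2 =
      ∫ x in (-1 : ℝ)..1, ‖F g A a x * F g B b x‖ ^ 2 := by
    refine intervalIntegral.integral_congr fun x hx => ?_
    rw [Set.uIcc_of_le (by norm_num : (-1 : ℝ) ≤ 1)] at hx
    rw [F_congr φ g he A a hx, F_congr φ g he B b hx, norm_mul, mul_pow]
  rw [e1]
  refine (h N R A B a b hN hR hA hB hA2 hB2 hAB).trans (le_of_eq ?_)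
  ring

end Pool.Agent.H79.QN
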