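import Mathlib

/-!
# Quartic norm of parabolic exponential sums with curved phase (MP_fa59e7_an): definitions

Board `qn`.  Row `XXX` is a theorem `xxx (h1 : S_AAA) ... : S_XXX` in `Pool/Agent/H<k>/QN/XXX.lean`
(import `Pool.Agent.H79.QN.Stmts`, namespace `Pool.Agent.H79.QN`), hypotheses = the rows it needs.
-/

set_option autoImplicit false

namespace Pool.Agent.H79.QN

open Finset

/-- `e(t) = exp(2 π i t)` -/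
noncomputable def e (t : ℝ) : ℂ := Complex.exp (2 * Real.pi * t * Complex.I)

/-- the kernel `∫_{-1}^{1} e(u x + k φ(x)) dx` -/
noncomputable def ker (φ : ℝ → ℝ) (u k : ℤ) : ℂ := ∫ x in (-1 : ℝ)..1, e (u * x + k * φ x)

/-- the phase function: `C²`, with `φ'` and `φ''` without zeros on `[-1, 1]` -/
structure Ph (φ : ℝ → ℝ) : Prop where
  smooth : ContDiff ℝ 2 φ
  d1 : ∀ x ∈ Set.Icc (-1 : ℝ) 1, deriv φ x ≠ 0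
  d2 : ∀ x ∈ Set.Icc (-1 : ℝ) 1, deriv (deriv φ) x ≠ 0

/-- kernel bounds -/
structure KB (φ : ℝ → ℝ) (C₁ Ck : ℝ) : Prop where
  one_le : 1 ≤ C₁
  pos : 0 < Ck
  b1 : ∀ u k : ℤ, ‖ker φ u k‖ ≤ 2
  b2 : ∀ u k : ℤ, u ≠ 0 → |(k : ℝ)| ≤ C₁ * |(u : ℝ)| → ‖ker φ u k‖ ≤ Ck / Real.sqrt |(u : ℝ)|
  b3 : ∀ u k : ℤ, k ≠ 0 → C₁ * |(u : ℝ)| ≤ |(k : ℝ)| → ‖ker φ u k‖ ≤ Ck / |(k : ℝ)|

/-- the pair `z = (n₁, n₂)` has frequencies `s = n₁ + n₂`, `m = n₁² + n₂²` -/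
def sz (z : ℤ × ℤ) : ℤ := z.1 + z.2

/-- `m = n₁² + n₂²` -/
def mz (z : ℤ × ℤ) : ℤ := z.1 ^ 2 + z.2 ^ 2

/-- rotated coordinates `(s, p) = (n₁ + n₂, n₁ - n₂)` of a pair; `s² + p² = 2 m` -/
def wz (z : ℤ × ℤ) : ℤ × ℤ := (z.1 + z.2, z.1 - z.2)

/-- the phase `e(s x + m φ(x))` of a pair -/
noncomputable def ph (φ : ℝ → ℝ) (z : ℤ × ℤ) (x : ℝ) : ℂ := e (sz z * x + mz z * φ x)

/-- `|w|²` -/
def nsq (w : ℤ × ℤ) : ℤ := w.1 ^ 2 + w.2 ^ 2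

/-- scalar product -/
def dot (z w : ℤ × ℤ) : ℤ := z.1 * w.1 + z.2 * w.2

/-- determinant -/
def crs (z w : ℤ × ℤ) : ℤ := z.1 * w.2 - z.2 * w.1

/-- `w = (s, p)` is of type `(P, ρ)`: `P ≤ |p| + 1 < 2 P`, `ρ² ≤ |w|² + 1 < 4 ρ²` -/
structure Cl (P ρ : ℝ) (w : ℤ × ℤ) : Prop where
  p1 : P ≤ |(w.2 : ℝ)| + 1
  p2 : |(w.2 : ℝ)| + 1 < 2 * P
  r1 : ρ ^ 2 ≤ (nsq w : ℝ) + 1
  r2 : (nsq w : ℝ) + 1 < 4 * ρ ^ 2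

/-- same signs -/
def SS (w w' : ℤ × ℤ) : Prop := (0 ≤ w.1 ↔ 0 ≤ w'.1) ∧ (0 ≤ w.2 ↔ 0 ≤ w'.2)

/-- dyadic size of `|p| + 1` -/
def iOf (w : ℤ × ℤ) : ℕ := Nat.log 2 (w.2.natAbs + 1)

/-- dyadic size of `(|w|² + 1) ^ (1 / 2)` -/
def jOf (w : ℤ × ℤ) : ℕ := Nat.log 4 ((nsq w).natAbs + 1)

/-- the length of the blocks of `s` -/
noncomputable def Lb (c₀ : ℝ) (i j : ℕ) : ℝ := max 1 (c₀ * 4 ^ i / ((2 : ℝ) ^ j) ^ (4 / 3 : ℝ))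

/-- the class of a pair: signs, dyadic sizes, and the number of its block modulo `K₀` -/
noncomputable def cls (c₀ : ℝ) (K₀ : ℕ) (w : ℤ × ℤ) : (Bool × Bool) × (ℕ × ℕ) × ℤ :=
  ((decide (0 ≤ w.1), decide (0 ≤ w.2)), (iOf w, jOf w),
    ⌊(w.1 : ℝ) / Lb c₀ (iOf w) (jOf w)⌋ % (K₀ : ℤ))

/-- hypotheses of the arc lemmas: `r = |z₀|`, `K` small compared with `r ^ (2 / 3)`, `l` with `r` -/
structure AH (z₀ : ℤ × ℤ) (r K l : ℝ) : Prop where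
  r1 : 1 ≤ r
  rsq : r ^ 2 = nsq z₀
  K1 : 1 ≤ K
  l1 : 1 ≤ l
  Kr : 1000 * K ≤ r ^ (2 / 3 : ℝ)
  lr : 1000 * l ≤ r

/-- `z` lies in the thick arc: `|z - z₀| ≤ l`, `||z|² - |z₀|²| ≤ K` -/
structure Mem (z₀ : ℤ × ℤ) (K l : ℝ) (z : ℤ × ℤ) : Prop where
  a : (nsq (z - z₀) : ℝ) ≤ l ^ 2
  b : |(nsq z : ℝ) - nsq z₀| ≤ K

/-- number of the window (length `r ^ (1 / 3) / 2`) of the arc which contains `z` -/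
noncomputable def win (z₀ : ℤ × ℤ) (r : ℝ) (z : ℤ × ℤ) : ℤ :=
  ⌊(crs z₀ z : ℝ) / (r * (r ^ (1 / 3 : ℝ) / 2))⌋

end Pool.Agent.H79.QN
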