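import Pool.Agent.H79.QN.Main3
import Pool.Agent.H12.QN.Asm
import Pool.Agent.H67.QN.FDT
import Pool.Agent.H62.QN.SDT
import Pool.Agent.H54.QN.SMB
import Pool.Agent.H56.QN.AC6
import Pool.Agent.H70.QN.SCH
import Pool.Agent.H17.QN.CTB
import Pool.Agent.H17.QN.AC1
import Pool.Agent.H66.QN.AC2
import Pool.Agent.H71.QN.NC2
import Pool.Agent.H88.QN.AC4
import Pool.Agent.H86.QN.AC7
import Pool.Agent.H16.QN.AC5
import Pool.Agent.H50.QN.NC1
import Pool.Agent.H45.QN.AC8
import Pool.Agent.H65.QN.AC3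
import Pool.Agent.H44.QN.RNG
import Pool.Agent.H2.QN.CLW
import Pool.Agent.H86.QN.CTA
import Pool.Agent.H86.QN.SMA
import Pool.Agent.H63.QN.ARC
import Pool.Agent.H2.QN.ROW
import Pool.Agent.H2.QN.ROG
import Pool.Agent.H45.QN.KER
import Pool.Agent.H34.QN.CLA
import Pool.Agent.H70.QN.KEJ
import Pool.Agent.H14.QN.CLJ
import Pool.Agent.H36.QN.LTA
import Pool.Agent.H66.QN.FTZ
import Pool.Agent.H71.QN.IND
import Pool.Agent.H1.QN.LVL
import Pool.Agent.H56.QN.BLK
import Pool.Agent.H55.QN.DYD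
import Pool.Agent.H62.QN.PWM
import Pool.Agent.H51.QN.LOC
import Pool.Agent.H99.QN.VDJ

/-! # Board `qn`: all rows plugged in -/

set_option autoImplicit false

namespace Pool.Agent.H79.QN

theorem sdt_all : S_SDT := sdt fdt
theorem ker_all : S_KER := ker_thm fdt sdt_all
theorem ac2_all : S_AC2 := ac2 ac1
theorem ac5_all : S_AC5 := ac5 ac1 ac2_all ac3 ac4
theorem ac7_all : S_AC7 := ac7 ac6
theorem arc_all : S_ARC := arc ac5_all ac7_all ac8
theorem sma_all : S_SMA := sma (cta arc_all)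
theorem smb_all : S_SMB := smb ctb
theorem row_all : S_ROW := row clw rng sma_all smb_all
theorem rog_all : S_ROG := rog clw rng sma_all smb_all
theorem cla_all : S_CLA := cla sch
theorem kej_all : S_KEJ := kej fdt sdt_all
theorem ftz_all : S_FTZ := ftz lta
theorem blk_all : S_BLK := blk Pool.QN.pb_all (Pool.QN.loc_thm Pool.QN.vdj_thm) lvl

end Pool.Agent.H79.QN
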