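import Pool.Agent.H79.QN.Stmts2
import Pool.Agent.H12.QN.Stmts2

/-!
# Board `qn`, third part: all phases of finite type, exponent `1/8 - 1/(12 k)` (joint with helper12)

Plan.  `|φ''| ≥ c δ^(k-2)` at distance `≥ δ` from a finite set `T`.  On an interval `[a, b]` with `|φ''| ≥ μ`:
`∫ |F|⁴ ≤ C μ^(-1/2) N^(1/3) (1 + log N)^5 A²` (classes, kernel on `[a, b]`).  On the short intervals around
`T`: `∫ |F_M|⁴ ≤ C M^ε (M^(1/2) |J| + 1) A²` for each dyadic block `F_M` (helper12's large values PB + local `L²`).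
`δ = M^(-1/(3k))`.

Row `XXX` = `theorem xxx (h1 : S_AAA) ... : S_XXX` in `Pool/Agent/H<k>/QN/XXX.lean`, import this file, namespace
`Pool.Agent.H79.QN`.
-/

set_option autoImplicit false

namespace Pool.Agent.H79.QN

open Finset MeasureTheory

/-- the kernel on `[a, b]` (`ker φ = kerJ φ (-1) 1`) -/
noncomputable def kerJ (φ : ℝ → ℝ) (a b : ℝ) (u k : ℤ) : ℂ := ∫ x in a..b, e (u * x + k * φ x)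

/-- `g` cut off outside `[-N, N]` -/
def cutN {β : Type} [Zero β] (N : ℕ) (g : ℤ → β) (n : ℤ) : β := if |n| ≤ (N : ℤ) then g n else 0

/-- CLJ (needs -; rows SCH and CLA on the interval `[a, b]`, same proofs: expand the square, Schur inside each
class, Cauchy-Schwarz over the classes). -/
def S_CLJ : Prop := ∀ (ι : Type) [DecidableEq ι] (φ : ℝ → ℝ) (a b : ℝ) (Z : Finset (ℤ × ℤ))
  (c : ℤ × ℤ → ℂ) (R : ℝ) (cl : ℤ × ℤ → ι), a ≤ b → Continuous φ → 0 ≤ R →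
  (∀ z ∈ Z, ∑ z' ∈ Z with cl z' = cl z, ‖kerJ φ a b (sz z - sz z') (mz z - mz z')‖ ≤ R) →
  ∫ x in a..b, ‖∑ z ∈ Z, c z * ph φ z x‖ ^ 2 ≤
    ((Z.image cl).card : ℝ) * R * ∑ z ∈ Z, ‖c z‖ ^ 2

/-- KEJ (needs FDT, SDT; row KER on a subinterval where `|φ''| ≥ μ`).  By compactness `α ≤ |φ'| ≤ β` on `[-1, 1]`,
`C₁ = 1 + 2 / α`; `φ''` is continuous without zero on `[a, b]`, so of constant sign there and `θ' = u + k φ'` is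
monotone or antitone on `[a, b]`.  First: `|kerJ| ≤ b - a ≤ 2 ≤ 2 / √μ`.  Third (`|k| ≥ C₁ |u|`): `|θ'| ≥ α |k| / 2`, FDT.
Second: if `|u| ≥ 2 β |k|` then `|θ'| ≥ |u| / 2`, FDT gives `2 / |u| ≤ 2 / √|u|`; otherwise `|k| > |u| / (2 β)`,
`|θ''| ≥ μ |u| / (2 β)`, SDT gives `8 √(2 β) / √(μ |u|)`. -/
def S_KEJ : Prop := ∀ φ : ℝ → ℝ, ContDiff ℝ 2 φ → (∀ x ∈ Set.Icc (-1 : ℝ) 1, deriv φ x ≠ 0) →
  ∃ C₁ C : ℝ, 1 ≤ C₁ ∧ 0 < C ∧ ∀ a b μ : ℝ, -1 ≤ a → a ≤ b → b ≤ 1 → 0 < μ → μ ≤ 1 →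
  (∀ x ∈ Set.Icc a b, μ ≤ |deriv (deriv φ) x|) →
  ‖kerJ φ a b 0 0‖ ≤ C / Real.sqrt μ ∧
  (∀ u k : ℤ, u ≠ 0 → |(k : ℝ)| ≤ C₁ * |(u : ℝ)| →
    ‖kerJ φ a b u k‖ ≤ C / Real.sqrt μ / Real.sqrt |(u : ℝ)|) ∧
  (∀ u k : ℤ, k ≠ 0 → C₁ * |(u : ℝ)| ≤ |(k : ℝ)| → ‖kerJ φ a b u k‖ ≤ C / Real.sqrt μ / |(k : ℝ)|)

/-- LTA (needs -).  Induction on `m`, all `f`.  `m = 0`: continuity, `c = |f x₀| / 2`.  Step: the claim for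
`deriv f` (`iteratedDeriv_succ'`) gives `c |x - x₀|^m ≤ |f' x|` for `|x - x₀| < ε`; `f x₀ = 0`; `f'` is continuous without
zero on `(x₀, x₀ + ε)`, so of constant sign there, `|f x| = ∫_{x₀}^{x} |f'| ≥ c |x - x₀|^(m+1) / (m+1)`; same on the left. -/
def S_LTA : Prop := ∀ (m : ℕ) (f : ℝ → ℝ) (x₀ : ℝ), ContDiff ℝ m f → (∀ i < m, iteratedDeriv i f x₀ = 0) →
  iteratedDeriv m f x₀ ≠ 0 → ∃ c ε : ℝ, 0 < c ∧ 0 < ε ∧ ∀ x, |x - x₀| < ε → c * |x - x₀| ^ m ≤ |f x|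

/-- FTZ (needs LTA).  For `x₀ ∈ [-1, 1]` take the smallest `j ≥ 2` with `φ^(j) x₀ ≠ 0`, `j ≤ k`; LTA for `f = φ''`, `m = j - 2`
(`iteratedDeriv i (deriv (deriv φ)) = iteratedDeriv (i + 2) φ`): `|φ'' x| ≥ c |x - x₀|^(j-2)` for `|x - x₀| < ε`.  Finitely many
of these intervals cover `[-1, 1]` (`isCompact_Icc.elim_nhds_subcover`); `T` = the chosen points, `c` = the smallest
constant (and `≤ 1`); `|x - t| ≥ δ` gives `|x - t|^(j-2) ≥ δ^(j-2) ≥ δ^(k-2)`. -/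
def S_FTZ : Prop := ∀ (k : ℕ) (φ : ℝ → ℝ), 2 ≤ k → FT k φ → ∃ (T : Finset ℝ) (c : ℝ), 0 < c ∧ c ≤ 1 ∧
  ∀ δ : ℝ, 0 < δ → δ ≤ 1 → ∀ x ∈ Set.Icc (-1 : ℝ) 1, (∀ t ∈ T, δ ≤ |x - t|) →
    c * δ ^ (k - 2) ≤ |deriv (deriv φ) x|

/-- IND (needs -).  Induction on `T`, for all `-1 ≤ a ≤ b ≤ 1` in place of `-1, 1`, bound `(2^|T| - 1) X + 2^|T| E`: for
`insert t T'` cut `[a, b]` at `t - δ` and `t + δ` (clipped to `[a, b]`): the middle part has length `≤ 2 δ`: `X`; on the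
outer parts `δ ≤ |x - t|`, so the hypothesis holds with `T'`. -/
def S_IND : Prop := ∀ (g ψ : ℝ → ℝ) (T : Finset ℝ) (δ μ E X : ℝ), Continuous g → (∀ x, 0 ≤ g x) → 0 < δ →
  0 ≤ E → 0 ≤ X →
  (∀ a b : ℝ, -1 ≤ a → a ≤ b → b ≤ 1 → (∀ x ∈ Set.Icc a b, μ ≤ |ψ x|) → ∫ x in a..b, g x ≤ E) →
  (∀ a b : ℝ, -1 ≤ a → a ≤ b → b ≤ 1 → b - a ≤ 2 * δ → ∫ x in a..b, g x ≤ X) →
  (∀ x ∈ Set.Icc (-1 : ℝ) 1, (∀ t ∈ T, δ ≤ |x - t|) → μ ≤ |ψ x|) →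
  ∫ x in (-1 : ℝ)..1, g x ≤ 2 ^ T.card * (E + X)

/-- LVL (needs -).  Pointwise `f⁴ ≤ l² f² + ∑_{j ≤ J} (2^(j+1) l)⁴ 1[2^j l ≤ f]` (if `f ≤ l` the first term is enough;
otherwise `2^j l ≤ f ≤ 2^(j+1) l` for some `j ≤ J`, as `f ≤ 2^J l`).  Integrate over `[a, b] ⊆ [-1, 1]`. -/
def S_LVL : Prop := ∀ (f : ℝ → ℝ) (a b l W : ℝ) (J : ℕ), Continuous f → (∀ x, 0 ≤ f x) → -1 ≤ a → a ≤ b →
  b ≤ 1 → 0 < l → 0 ≤ W → (∀ x, f x ≤ 2 ^ J * l) →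
  (∀ t : ℝ, l ≤ t → t ^ 4 * (Pool.QN.mu {x | t ≤ f x}).toReal ≤ W) →
  ∫ x in a..b, f x ^ 4 ≤ l ^ 2 * (∫ x in a..b, f x ^ 2) + 16 * (J + 1) * W

/-- BLK (needs PB LOC of board `qnb` and LVL).  `A = ∑ ‖a k‖²`; `A = 0` is clear.  PB with `ε / 2`, constant `C₁ ≥ 1`:
`l⁴ = C₁ M^(1 + ε/2) A²`, `W = C₁ M^(ε/2) A²`; `|FA| ≤ (M A)^(1/2) ≤ M l ≤ 2^J l`, `J = Nat.clog 2 M`.  LVL:
`∫ f⁴ ≤ l² ∫ f² + 16 (J + 1) W`, `l² = C₁^(1/2) M^(1/2 + ε/4) A`, and LOC (`S` = the image of `k ↦ s (M + k)`,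
`M ≤ |n| ≤ 2 M`) `∫ f² ≤ C₂ ((b - a) + (1 + log (2 M)) / M) A`; `1 + log (2 M), J + 1 ≤ C₃ M^(ε/2)`, `M^(-1/2) ≤ 1`. -/
def S_BLK : Prop := ∀ c B ε : ℝ, 0 < ε → ∃ C : ℝ, 0 < C ∧ ∀ φ φ1 φ2 : ℝ → ℝ, Pool.QN.Cur c B φ φ1 φ2 →
  Continuous φ → ∀ (s : ℤ) (M : ℕ), (s = 1 ∨ s = -1) → 1 ≤ M → ∀ (a : ℕ → ℂ) (α β : ℝ), -1 ≤ α → α ≤ β →
  β ≤ 1 → ∫ x in α..β, ‖Pool.QN.FA s (s * M) M a φ x‖ ^ 4 ≤
    C * (M : ℝ) ^ ε * ((M : ℝ) ^ (1 / 2 : ℝ) * (β - α) + 1) * (∑ k ∈ range M, ‖a k‖ ^ 2) ^ 2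

/-- DYD (needs -).  Dyadic decomposition of `[-N, N] \ {0}`: the intervals `[2^j, 2^(j+1))`, `j ≤ log₂ N`, cover
`[1, N]`, and `cutN` kills what lies beyond `N`. -/
def S_DYD : Prop := ∀ (β : Type) [AddCommMonoid β] (N : ℕ) (g : ℤ → β),
  ∑ n ∈ Icc (-(N : ℤ)) N, g n = g 0 + ∑ j ∈ range (Nat.log 2 N + 1),
    (∑ k ∈ range (2 ^ j), cutN N g ((2 ^ j : ℕ) + (k : ℤ)) +
      ∑ k ∈ range (2 ^ j), cutN N g (-((2 ^ j : ℕ) + (k : ℤ))))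

/-- PWM (needs -).  `(x₁ + ... + x_L)⁴ ≤ L³ ∑ x_i⁴` (`inner_le_nnorm_mul_nnorm` or `inner_mul_le_norm_mul_norm`, e.g.
`Finset.inner_mul_le_norm_mul_norm`; Mathlib: `inner_le_Lp_mul_Lq`, `Real.pow_arith_mean_le_arith_mean_pow`,
`Finset.pow_sum_le`?) with `L = 2 (log₂ N + 1) + 1` terms `h`. -/
def S_PWM : Prop := ∀ (L : ℕ) (z : ℂ) (u v : ℕ → ℂ),
  ‖z + ∑ j ∈ range L, (u j + v j)‖ ^ 4 ≤
    (2 * (L : ℝ) + 1) ^ 3 * (‖z‖ ^ 4 + ∑ j ∈ range L, (‖u j‖ ^ 4 + ‖v j‖ ^ 4))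

end Pool.Agent.H79.QN
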