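import Pool.Agent.H79.QN.Main
import Pool.Agent.H79.QN.Stmts3

/-!
# Quartic norm of parabolic exponential sums with curved phase: finite type, assembly
-/

set_option autoImplicit false

namespace Pool.Agent.H79.QN

open Finset MeasureTheory

/-- the estimate on an interval where `|φ''| ≥ μ` -/
theorem inj (hkej : S_KEJ) (hrog : S_ROG) (hclj : S_CLJ) (hnc1 : S_NC1) (φ : ℝ → ℝ)
    (hφ : ContDiff ℝ 2 φ) (hd : ∀ x ∈ Set.Icc (-1 : ℝ) 1, deriv φ x ≠ 0) :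
    ∃ C : ℝ, 0 < C ∧ ∀ (a b μ : ℝ) (N : ℕ) (c : ℤ → ℂ), -1 ≤ a → a ≤ b → b ≤ 1 → 0 < μ → μ ≤ 1 →
      (∀ x ∈ Set.Icc a b, μ ≤ |deriv (deriv φ) x|) → 1 ≤ N →
      ∫ x in a..b, ‖F φ (Icc (-(N : ℤ)) N) c x‖ ^ 4 ≤
        C / Real.sqrt μ * (N : ℝ) ^ (1 / 3 : ℝ) * (1 + Real.log N) ^ 5 *
          (∑ n ∈ Icc (-(N : ℤ)) N, ‖c n‖ ^ 2) ^ 2 := by
  obtain ⟨C₁, Ck, hC1, hCk, hk⟩ := hkej φ hφ hd
  obtain ⟨c₀, C₃, C, D, hc₀, hC₃, hC, hD, h⟩ := hrog C₁ hC1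
  refine ⟨100 * (3 + C₃) * (C * Ck), by positivity, ?_⟩
  intro a b μ N c ha hab hb hμ hμ1 hlow hN
  obtain ⟨K₀, hK1, hK2, hK3⟩ := exists_K C₃ hC₃ N hN
  obtain ⟨k0, k1, k2⟩ := hk a b μ ha hab hb hμ hμ1 hlow
  have hsq : 0 < Real.sqrt μ := Real.sqrt_pos.2 hμ
  set I := Icc (-(N : ℤ)) N with hI
  have hbox : ∀ z ∈ I ×ˢ I, |z.1| ≤ (N : ℤ) ∧ |z.2| ≤ (N : ℤ) := by
    intro z hz
    rw [mem_product, hI, mem_Icc, mem_Icc] at hz
    exact ⟨abs_le.2 hz.1, abs_le.2 hz.2⟩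
  have hl : 0 ≤ Real.log N := Real.log_natCast_nonneg N
  have hrow := h N K₀ (I ×ˢ I) (Ck / Real.sqrt μ) (fun u k => ‖kerJ φ a b u k‖) hN hK2 hbox
    (by positivity) k0 (fun u k hu _ hku => k1 u k hu hku) k2
  have h1 := hclj _ φ a b (I ×ˢ I) (fun z => c z.1 * c z.2) (C * (Ck / Real.sqrt μ) * (1 + Real.log N) ^ 3)
    (fun z => cls c₀ K₀ (wz z)) hab hφ.continuous (by positivity) hrow
  have h2 := hnc1 c₀ N K₀ (I ×ˢ I) hN hK1 hbox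
  have e1 : ∀ x, ‖F φ I c x‖ ^ 4 = ‖∑ z ∈ I ×ˢ I, (c z.1 * c z.2) * ph φ z x‖ ^ 2 := by
    intro x
    rw [← F_mul, norm_mul]
    ring
  simp_rw [e1]
  rw [sum_sq_prod] at h1
  set S := ∑ n ∈ I, ‖c n‖ ^ 2 with hS
  have hS0 : 0 ≤ S := sum_nonneg fun n _ => by positivity
  have h3 : ((((I ×ˢ I).image (fun z => cls c₀ K₀ (wz z))).card : ℕ) : ℝ) ≤
      100 * (1 + Real.log N) ^ 2 * ((3 + C₃) * (N : ℝ) ^ (1 / 3 : ℝ)) :=
    h2.trans (mul_le_mul_of_nonneg_left hK3 (by positivity))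
  refine h1.trans ?_
  calc _ ≤ 100 * (1 + Real.log N) ^ 2 * ((3 + C₃) * (N : ℝ) ^ (1 / 3 : ℝ)) *
        (C * (Ck / Real.sqrt μ) * (1 + Real.log N) ^ 3) * (S * S) := by gcongr
    _ = _ := by ring

/-- the hypotheses of helper12's rows -/
theorem cur_of (φ : ℝ → ℝ) (hφ : ContDiff ℝ 2 φ) (hd : ∀ x ∈ Set.Icc (-1 : ℝ) 1, deriv φ x ≠ 0) :
    ∃ c B : ℝ, Pool.QN.Cur c B φ (deriv φ) (deriv (deriv φ)) := by
  have h1 : ContDiff ℝ 1 (deriv φ) := by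
    have h2 : ContDiff ℝ (1 + 1) φ := by
      have e : ((1 : WithTop ℕ∞) + 1) = 2 := by norm_num
      rw [e]
      exact hφ
    exact (contDiff_succ_iff_deriv.1 h2).2.2
  have h0 : Differentiable ℝ φ := hφ.differentiable (by norm_num)
  have h1d : Differentiable ℝ (deriv φ) := h1.differentiable (by norm_num)
  have hc1 : Continuous (deriv φ) := h1.continuous
  have hc2 : Continuous (deriv (deriv φ)) := h1.continuous_deriv (by norm_num)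
  have hne : (Set.Icc (-1 : ℝ) 1).Nonempty := ⟨0, by norm_num, by norm_num⟩
  obtain ⟨x0, hx0, hmin⟩ := isCompact_Icc.exists_isMinOn hne (hc1.abs.continuousOn (s := Set.Icc (-1 : ℝ) 1))
  obtain ⟨x1, hx1, hmax⟩ := isCompact_Icc.exists_isMaxOn hne (hc1.abs.continuousOn (s := Set.Icc (-1 : ℝ) 1))
  obtain ⟨x2, hx2, hmax2⟩ := isCompact_Icc.exists_isMaxOn hne (hc2.abs.continuousOn (s := Set.Icc (-1 : ℝ) 1))
  refine ⟨|deriv φ x0|, max |deriv φ x1| |deriv (deriv φ) x2|, ?_⟩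
  exact
    { cpos := abs_pos.2 (hd x0 hx0)
      d1 := fun x _ => (h0 x).hasDerivAt.hasDerivWithinAt
      d2 := fun x _ => (h1d x).hasDerivAt.hasDerivWithinAt
      cont := hc2.continuousOn
      lo := fun x hx => hmin hx
      hi := fun x hx => (hmax hx).trans (le_max_left _ _)
      hi2 := fun x hx => (hmax2 hx).trans (le_max_right _ _) }

theorem ee_eq (t : ℝ) : Pool.QN.ee t = e t := by
  unfold Pool.QN.ee e
  congr 1
  push_cast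
  ring

/-- a block sum as a sum over `[-2M, 2M]` -/
theorem block_sum {β : Type} [AddCommMonoid β] (s : ℤ) (hs : s = 1 ∨ s = -1) (M : ℕ) (H : ℤ → β) :
    ∑ n ∈ Icc (-((2 * M : ℕ) : ℤ)) ((2 * M : ℕ) : ℤ),
      (if (M : ℤ) ≤ s * n ∧ s * n < 2 * M then H n else 0) = ∑ k ∈ range M, H (s * (M + k)) := by
  rw [← sum_filter]
  symm
  have hss : s * s = 1 := by rcases hs with h | h <;> subst h <;> norm_num
  refine sum_bij (fun k _ => s * (M + k)) ?_ ?_ ?_ ?_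
  · intro k hk
    rw [mem_range] at hk
    rw [mem_filter, mem_Icc]
    have h1 : s * (s * ((M : ℤ) + k)) = M + k := by rw [← mul_assoc, hss, one_mul]
    rw [h1]
    have hk' : (k : ℤ) < M := by exact_mod_cast hk
    have hk0 : (0 : ℤ) ≤ k := Int.natCast_nonneg k
    refine ⟨?_, by linarith, by linarith⟩
    rcases hs with h | h <;> subst h <;> push_cast <;> constructor <;> linarith
  · intro k _ k' _ h
    have h2 := congrArg (fun t => s * t) h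
    simp only [← mul_assoc, hss, one_mul] at h2
    have : (k : ℤ) = k' := by linarith
    exact_mod_cast this
  · intro n hn
    rw [mem_filter, mem_Icc] at hn
    obtain ⟨-, h1, h2⟩ := hn
    refine ⟨(s * n - M).toNat, ?_, ?_⟩
    · rw [mem_range]
      have : ((s * n - M).toNat : ℤ) = s * n - M := Int.toNat_of_nonneg (by linarith)
      have h3 : ((s * n - M).toNat : ℤ) < M := by rw [this]; linarith
      exact_mod_cast h3
    · have : ((s * n - M).toNat : ℤ) = s * n - M := Int.toNat_of_nonneg (by linarith)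
      rw [this]
      have h4 : s * (M + (s * n - M)) = s * s * n := by ring
      rw [h4, hss, one_mul]
  · intro k _
    rfl

/-- coefficients of a block, as a function on `ℤ` -/
noncomputable def bc (s : ℤ) (M : ℕ) (a : ℕ → ℂ) (n : ℤ) : ℂ :=
  if (M : ℤ) ≤ s * n ∧ s * n < 2 * M then a (s * n - M).toNat else 0

theorem bc_eval (s : ℤ) (hs : s = 1 ∨ s = -1) (M k : ℕ) (a : ℕ → ℂ) :
    a (s * (s * ((M : ℤ) + k)) - M).toNat = a k := by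
  have hss : s * s = 1 := by rcases hs with h | h <;> subst h <;> norm_num
  have h1 : s * (s * ((M : ℤ) + k)) - M = k := by rw [← mul_assoc, hss, one_mul]; ring
  rw [h1]
  rfl

theorem F_bc (φ : ℝ → ℝ) (s : ℤ) (hs : s = 1 ∨ s = -1) (M : ℕ) (a : ℕ → ℂ) (x : ℝ) :
    F φ (Icc (-((2 * M : ℕ) : ℤ)) ((2 * M : ℕ) : ℤ)) (bc s M a) x = Pool.QN.FA s (s * M) M a φ x := by
  have h := block_sum s hs M (fun n => a (s * n - M).toNat * e (n * x + n ^ 2 * φ x))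
  have h1 : F φ (Icc (-((2 * M : ℕ) : ℤ)) ((2 * M : ℕ) : ℤ)) (bc s M a) x =
      ∑ n ∈ Icc (-((2 * M : ℕ) : ℤ)) ((2 * M : ℕ) : ℤ),
        (if (M : ℤ) ≤ s * n ∧ s * n < 2 * M then a (s * n - M).toNat * e (n * x + n ^ 2 * φ x) else 0) := by
    unfold F bc
    refine sum_congr rfl fun n _ => ?_
    split_ifs with hc
    · rfl
    · rw [zero_mul]
  rw [h1, h]
  unfold Pool.QN.FA Pool.QN.uu
  refine sum_congr rfl fun k _ => ?_
  rw [bc_eval s hs M k a, ee_eq]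
  congr 2
  push_cast
  ring

theorem norm_bc (s : ℤ) (hs : s = 1 ∨ s = -1) (M : ℕ) (a : ℕ → ℂ) :
    ∑ n ∈ Icc (-((2 * M : ℕ) : ℤ)) ((2 * M : ℕ) : ℤ), ‖bc s M a n‖ ^ 2 = ∑ k ∈ range M, ‖a k‖ ^ 2 := by
  have h := block_sum s hs M (fun n => ‖a (s * n - M).toNat‖ ^ 2)
  have h1 : ∑ n ∈ Icc (-((2 * M : ℕ) : ℤ)) ((2 * M : ℕ) : ℤ), ‖bc s M a n‖ ^ 2 =
      ∑ n ∈ Icc (-((2 * M : ℕ) : ℤ)) ((2 * M : ℕ) : ℤ),
        (if (M : ℤ) ≤ s * n ∧ s * n < 2 * M then ‖a (s * n - M).toNat‖ ^ 2 else 0) := by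
    unfold bc
    refine sum_congr rfl fun n _ => ?_
    split_ifs with hc
    · rfl
    · simp
  rw [h1, h]
  exact sum_congr rfl fun k _ => by rw [bc_eval s hs M k a]

/-- powers of the logarithm -/
theorem log_pow_le (m : ℕ) (ε : ℝ) (hε : 0 < ε) : ∃ C : ℝ, 0 < C ∧ ∀ x : ℝ, 1 ≤ x →
    (1 + Real.log x) ^ m ≤ C * x ^ ε := by
  rcases Nat.eq_zero_or_pos m with rfl | hm
  · exact ⟨1, one_pos, fun x hx => by simpa using Real.one_le_rpow hx hε.le⟩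
  have hm0 : (0 : ℝ) < m := by exact_mod_cast hm
  set η := ε / m with hη
  have hη0 : 0 < η := by positivity
  refine ⟨(1 + 1 / η) ^ m, by positivity, fun x hx => ?_⟩
  have hx0 : 0 ≤ x := by linarith
  have h1 : Real.log x ≤ x ^ η / η := Real.log_le_rpow_div hx0 hη0
  have h2 : 1 ≤ x ^ η := Real.one_le_rpow hx hη0.le
  have h3 : 1 + Real.log x ≤ (1 + 1 / η) * x ^ η := by
    have : (1 + 1 / η) * x ^ η = x ^ η + x ^ η / η := by ring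
    rw [this]
    linarith
  have h4 : 0 ≤ Real.log x := Real.log_nonneg hx
  calc (1 + Real.log x) ^ m ≤ ((1 + 1 / η) * x ^ η) ^ m := by gcongr
    _ = (1 + 1 / η) ^ m * x ^ ε := by
      rw [mul_pow, ← Real.rpow_natCast (x ^ η), ← Real.rpow_mul hx0]
      congr 2
      rw [hη]
      field_simp

/-- one block -/
theorem block (hkej : S_KEJ) (hrog : S_ROG) (hclj : S_CLJ) (hnc1 : S_NC1) (hftz : S_FTZ) (hind : S_IND)
    (hblk : S_BLK) (k : ℕ) (hk : 2 ≤ k) (φ : ℝ → ℝ) (hφ : FT k φ) (ε : ℝ) (hε : 0 < ε) :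
    ∃ C : ℝ, 0 < C ∧ ∀ (s : ℤ) (M : ℕ) (a : ℕ → ℂ), (s = 1 ∨ s = -1) → 1 ≤ M →
      ∫ x in (-1 : ℝ)..1, ‖Pool.QN.FA s (s * M) M a φ x‖ ^ 4 ≤
        C * (M : ℝ) ^ (1 / 2 - 1 / (3 * k) + ε : ℝ) * (∑ j ∈ range M, ‖a j‖ ^ 2) ^ 2 := by
  have hsm : ContDiff ℝ 2 φ := hφ.smooth.of_le (by exact_mod_cast hk)
  obtain ⟨C1, hC1, h1⟩ := inj hkej hrog hclj hnc1 φ hsm hφ.d1
  obtain ⟨T, c, hc, hc1, hT⟩ := hftz k φ hk hφ
  obtain ⟨cc, BB, hcur⟩ := cur_of φ hsm hφ.d1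
  obtain ⟨C2, hC2, h2⟩ := hblk cc BB ε hε
  obtain ⟨C3, hC3, h3⟩ := log_pow_le 5 ε hε
  have hk0 : (0 : ℝ) < k := by exact_mod_cast (by omega : 0 < k)
  have hk2 : (2 : ℝ) ≤ k := by exact_mod_cast hk
  refine ⟨2 ^ T.card * (C1 / Real.sqrt c * 2 * (C3 * 2 ^ ε) + 3 * C2), by positivity, ?_⟩
  intro s M a hs hM
  have hM1 : (1 : ℝ) ≤ M := by exact_mod_cast hM
  have hM0 : (0 : ℝ) < M := by linarith
  set A := ∑ j ∈ range M, ‖a j‖ ^ 2 with hA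
  have hA0 : 0 ≤ A := sum_nonneg fun n _ => by positivity
  set γ : ℝ := 1 / 2 - 1 / (3 * k) + ε with hγ
  set δ : ℝ := (M : ℝ) ^ (-(1 / (3 * k)) : ℝ) with hδ
  have hδ0 : 0 < δ := by positivity
  have hδ1 : δ ≤ 1 := by
    rw [hδ]
    apply Real.rpow_le_one_of_one_le_of_nonpos hM1
    have : 0 ≤ 1 / (3 * (k : ℝ)) := by positivity
    linarith
  set μ : ℝ := c * δ ^ (k - 2) with hμ
  have hμ0 : 0 < μ := by positivity
  have hμ1 : μ ≤ 1 := by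
    rw [hμ]
    exact mul_le_one₀ hc1 (by positivity) (pow_le_one₀ hδ0.le hδ1)
  have hcont : Continuous fun x => ‖Pool.QN.FA s (s * M) M a φ x‖ ^ 4 := by
    have hc' : Continuous φ := hsm.continuous
    unfold Pool.QN.FA Pool.QN.uu Pool.QN.ee
    fun_prop
  -- the value of `1 / √μ`
  have hsqμ : C1 / Real.sqrt μ = C1 / Real.sqrt c * (M : ℝ) ^ (((k : ℝ) - 2) / (6 * k)) := by
    have hk22 : ((k - 2 : ℕ) : ℝ) = (k : ℝ) - 2 := by push_cast [Nat.cast_sub hk]; ring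
    have e1 : δ ^ (k - 2) = (M : ℝ) ^ (-(((k : ℝ) - 2) / (3 * k))) := by
      rw [hδ, ← Real.rpow_natCast, ← Real.rpow_mul hM0.le, hk22]
      congr 1
      field_simp
    have e2 : Real.sqrt (δ ^ (k - 2)) = (M : ℝ) ^ (-(((k : ℝ) - 2) / (6 * k))) := by
      rw [e1, Real.sqrt_eq_rpow, ← Real.rpow_mul hM0.le]
      congr 1
      field_simp
      ring
    rw [hμ, Real.sqrt_mul hc.le, e2, Real.rpow_neg hM0.le]
    field_simp
  have hE : ∀ α β : ℝ, -1 ≤ α → α ≤ β → β ≤ 1 → (∀ x ∈ Set.Icc α β, μ ≤ |deriv (deriv φ) x|) →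
      ∫ x in α..β, ‖Pool.QN.FA s (s * M) M a φ x‖ ^ 4 ≤
        C1 / Real.sqrt c * 2 * (C3 * 2 ^ ε) * (M : ℝ) ^ γ * A ^ 2 := by
    intro α β hα hαβ hβ hlow
    have h := h1 α β μ (2 * M) (bc s M a) hα hαβ hβ hμ0 hμ1 hlow (by omega)
    simp_rw [F_bc φ s hs] at h
    rw [norm_bc s hs] at h
    refine h.trans ?_
    rw [← hA, hsqμ]
    have h5 : ((2 * M : ℕ) : ℝ) = 2 * M := by push_cast; ring
    rw [h5]
    have h6 := h3 (2 * M) (by linarith)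
    rw [Real.mul_rpow (by norm_num) hM0.le] at h6
    have h7 : (2 * (M : ℝ)) ^ (1 / 3 : ℝ) ≤ 2 * (M : ℝ) ^ (1 / 3 : ℝ) := by
      rw [Real.mul_rpow (by norm_num) hM0.le]
      have : (2 : ℝ) ^ (1 / 3 : ℝ) ≤ 2 ^ (1 : ℝ) :=
        Real.rpow_le_rpow_of_exponent_le (by norm_num) (by norm_num)
      rw [Real.rpow_one] at this
      gcongr
    have h8 : (M : ℝ) ^ (((k : ℝ) - 2) / (6 * k)) * (M : ℝ) ^ (1 / 3 : ℝ) * (M : ℝ) ^ ε = (M : ℝ) ^ γ := by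
      rw [← Real.rpow_add hM0, ← Real.rpow_add hM0]
      congr 1
      rw [hγ]
      field_simp
      ring
    have hl2 : 0 ≤ Real.log (2 * M) := Real.log_nonneg (by linarith)
    calc C1 / Real.sqrt c * (M : ℝ) ^ (((k : ℝ) - 2) / (6 * k)) * (2 * (M : ℝ)) ^ (1 / 3 : ℝ) *
          (1 + Real.log (2 * M)) ^ 5 * A ^ 2
        ≤ C1 / Real.sqrt c * (M : ℝ) ^ (((k : ℝ) - 2) / (6 * k)) * (2 * (M : ℝ) ^ (1 / 3 : ℝ)) *
          (C3 * (2 ^ ε * (M : ℝ) ^ ε)) * A ^ 2 := by gcongr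
      _ = C1 / Real.sqrt c * 2 * (C3 * 2 ^ ε) *
          ((M : ℝ) ^ (((k : ℝ) - 2) / (6 * k)) * (M : ℝ) ^ (1 / 3 : ℝ) * (M : ℝ) ^ ε) * A ^ 2 := by ring
      _ = _ := by rw [h8]
  have hX : ∀ α β : ℝ, -1 ≤ α → α ≤ β → β ≤ 1 → β - α ≤ 2 * δ →
      ∫ x in α..β, ‖Pool.QN.FA s (s * M) M a φ x‖ ^ 4 ≤ 3 * C2 * (M : ℝ) ^ γ * A ^ 2 := by
    intro α β hα hαβ hβ hlen
    refine (h2 φ (deriv φ) (deriv (deriv φ)) hcur hsm.continuous s M hs hM a α β hα hαβ hβ).trans ?_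
    rw [← hA]
    have h9 : (M : ℝ) ^ (1 / 2 : ℝ) * δ = (M : ℝ) ^ (1 / 2 - 1 / (3 * k) : ℝ) := by
      rw [hδ, ← Real.rpow_add hM0]
      congr 1
    have h10 : 1 ≤ (M : ℝ) ^ (1 / 2 - 1 / (3 * k) : ℝ) := by
      apply Real.one_le_rpow hM1
      have : 1 / (3 * (k : ℝ)) ≤ 1 / 2 := by
        rw [div_le_div_iff₀ (by positivity) (by norm_num)]
        linarith
      linarith
    have h11 : (M : ℝ) ^ (1 / 2 : ℝ) * (β - α) + 1 ≤ 3 * (M : ℝ) ^ (1 / 2 - 1 / (3 * k) : ℝ) := by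
      have : (M : ℝ) ^ (1 / 2 : ℝ) * (β - α) ≤ 2 * ((M : ℝ) ^ (1 / 2 : ℝ) * δ) := by
        have := mul_le_mul_of_nonneg_left hlen (by positivity : 0 ≤ (M : ℝ) ^ (1 / 2 : ℝ))
        linarith
      rw [h9] at this
      linarith
    have h12 : (M : ℝ) ^ ε * (M : ℝ) ^ (1 / 2 - 1 / (3 * k) : ℝ) = (M : ℝ) ^ γ := by
      rw [← Real.rpow_add hM0]
      congr 1
      rw [hγ]
      ring
    calc C2 * (M : ℝ) ^ ε * ((M : ℝ) ^ (1 / 2 : ℝ) * (β - α) + 1) * A ^ 2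
        ≤ C2 * (M : ℝ) ^ ε * (3 * (M : ℝ) ^ (1 / 2 - 1 / (3 * k) : ℝ)) * A ^ 2 := by gcongr
      _ = 3 * C2 * ((M : ℝ) ^ ε * (M : ℝ) ^ (1 / 2 - 1 / (3 * k) : ℝ)) * A ^ 2 := by ring
      _ = _ := by rw [h12]
  refine (hind _ (deriv (deriv φ)) T δ μ _ _ hcont (fun x => by positivity) hδ0 (by positivity)
    (by positivity) hE hX (hT δ hδ0 hδ1)).trans (le_of_eq ?_)
  ring

end Pool.Agent.H79.QN
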