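import Pool.Agent.H79.QN.Main2

/-!
# Quartic norm of parabolic exponential sums with curved phase: finite type, sum of the blocks
-/

set_option autoImplicit false

namespace Pool.Agent.H79.QN

open Finset MeasureTheory

theorem cutN_mul (N : ℕ) (a : ℤ → ℂ) (h : ℤ → ℂ) (n : ℤ) :
    cutN N (fun n => a n * h n) n = cutN N a n * h n := by
  unfold cutN
  split_ifs <;> simp

theorem cutN_sq (N : ℕ) (a : ℤ → ℂ) (n : ℤ) :
    cutN N (fun n => ‖a n‖ ^ 2) n = ‖cutN N a n‖ ^ 2 := by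
  unfold cutN
  split_ifs <;> simp

/-- the coefficients of the `j`-th block on the side `s` -/
noncomputable def bcf (N : ℕ) (a : ℤ → ℂ) (s : ℤ) (j : ℕ) (k : ℕ) : ℂ :=
  cutN N a (s * (((2 ^ j : ℕ) : ℤ) + k))

theorem FA_bcf (φ : ℝ → ℝ) (N : ℕ) (a : ℤ → ℂ) (s : ℤ) (j : ℕ) (x : ℝ) :
    Pool.QN.FA s (s * (2 ^ j : ℕ)) (2 ^ j) (bcf N a s j) φ x =
      ∑ k ∈ range (2 ^ j), cutN N (fun n => a n * e (n * x + n ^ 2 * φ x))
        (s * (((2 ^ j : ℕ) : ℤ) + k)) := by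
  unfold Pool.QN.FA Pool.QN.uu
  refine sum_congr rfl fun k _ => ?_
  rw [ee_eq, cutN_mul N a (fun n => e (n * x + n ^ 2 * φ x)), bcf]
  congr 2
  push_cast
  ring

theorem two_L (N : ℕ) (hN : 1 ≤ N) :
    2 * ((Nat.log 2 N + 1 : ℕ) : ℝ) + 1 ≤ 3 * (1 + Real.log N) := by
  have hN1 : (1 : ℝ) ≤ (N : ℝ) := by exact_mod_cast hN
  have h1 : ((Nat.log 2 N : ℕ) : ℝ) ≤ Real.logb 2 N := by
    have := Real.natLog_le_logb N 2
    exact_mod_cast this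
  have h2 : Real.logb 2 N = Real.log N / Real.log 2 := rfl
  have h3 : (0.6931471803 : ℝ) < Real.log 2 := Real.log_two_gt_d9
  have h4 : 0 ≤ Real.log N := Real.log_nonneg hN1
  have h5 : Real.log N / Real.log 2 ≤ 3 / 2 * Real.log N := by
    rw [div_le_iff₀ (by linarith)]
    nlinarith
  push_cast
  rw [h2] at h1
  linarith

/-- integration of the pointwise bound -/
theorem int_sum (L : ℕ) (c A : ℝ) (u v : ℕ → ℝ → ℝ) (hu : ∀ j, Continuous (u j)) (hv : ∀ j, Continuous (v j)) :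
    ∫ x in (-1 : ℝ)..1, c * (A + ∑ j ∈ range L, (u j x + v j x)) =
      c * (2 * A + ∑ j ∈ range L, ((∫ x in (-1 : ℝ)..1, u j x) + ∫ x in (-1 : ℝ)..1, v j x)) := by
  have hu' : ∀ j, IntervalIntegrable (u j) volume (-1) 1 := fun j => (hu j).intervalIntegrable _ _
  have hv' : ∀ j, IntervalIntegrable (v j) volume (-1) 1 := fun j => (hv j).intervalIntegrable _ _
  have hs : IntervalIntegrable (fun x => ∑ j ∈ range L, (u j x + v j x)) volume (-1) 1 :=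
    (continuous_finset_sum _ fun j _ => (hu j).add (hv j)).intervalIntegrable _ _
  rw [intervalIntegral.integral_const_mul, intervalIntegral.integral_add intervalIntegrable_const hs,
    intervalIntegral.integral_const]
  congr 2
  · norm_num
  · rw [intervalIntegral.integral_finset_sum (fun j _ => (hu' j).add (hv' j))]
    exact sum_congr rfl fun j _ => intervalIntegral.integral_add (hu' j) (hv' j)

/-- the fourth power form for phases of finite type -/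
theorem ft_fourth (hkej : S_KEJ) (hrog : S_ROG) (hclj : S_CLJ) (hnc1 : S_NC1) (hftz : S_FTZ)
    (hind : S_IND) (hblk : S_BLK) (hdyd : S_DYD) (hpwm : S_PWM) (k : ℕ) (hk : 2 ≤ k) (φ : ℝ → ℝ)
    (hφ : FT k φ) (ε : ℝ) (hε : 0 < ε) :
    ∃ C : ℝ, 0 < C ∧ ∀ (N : ℕ) (a : ℤ → ℂ), 1 ≤ N →
      ∫ x in (-1 : ℝ)..1, ‖F φ (Icc (-(N : ℤ)) N) a x‖ ^ 4 ≤
        C * (N : ℝ) ^ (1 / 2 - 1 / (3 * k) + ε : ℝ) * (∑ n ∈ Icc (-(N : ℤ)) N, ‖a n‖ ^ 2) ^ 2 := by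
  have hsm : ContDiff ℝ 2 φ := hφ.smooth.of_le (by exact_mod_cast hk)
  obtain ⟨Cb, hCb, hb⟩ := block hkej hrog hclj hnc1 hftz hind hblk k hk φ hφ (ε / 2) (by positivity)
  obtain ⟨Cl, hCl, hl⟩ := log_pow_le 3 (ε / 2) (by positivity)
  have hk0 : (0 : ℝ) < k := by exact_mod_cast (by omega : 0 < k)
  have hk2 : (2 : ℝ) ≤ k := by exact_mod_cast hk
  refine ⟨27 * Cl * (2 + Cb), by positivity, ?_⟩
  intro N a hN
  have hN1 : (1 : ℝ) ≤ (N : ℝ) := by exact_mod_cast hN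
  have hN0 : (0 : ℝ) < N := by linarith
  set γ : ℝ := 1 / 2 - 1 / (3 * k) + ε / 2 with hγ
  have hγ0 : 0 ≤ γ := by
    have : 1 / (3 * (k : ℝ)) ≤ 1 / 2 := by
      rw [div_le_div_iff₀ (by positivity) (by norm_num)]
      linarith
    linarith
  set L := Nat.log 2 N + 1 with hL
  set U : ℤ → ℕ → ℝ := fun s j => ∑ i ∈ range (2 ^ j), ‖bcf N a s j i‖ ^ 2 with hU
  set S := ∑ n ∈ Icc (-(N : ℤ)) N, ‖a n‖ ^ 2 with hS
  have hU0 : ∀ s j, 0 ≤ U s j := fun s j => sum_nonneg fun n _ => by positivity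
  have hSd : S = ‖a 0‖ ^ 2 + ∑ j ∈ range L, (U 1 j + U (-1) j) := by
    rw [hS, hdyd ℝ N (fun n => ‖a n‖ ^ 2)]
    congr 1
    refine sum_congr rfl fun j _ => ?_
    rw [hU]
    congr 1
    · refine sum_congr rfl fun i _ => ?_
      rw [cutN_sq, bcf, one_mul]
    · refine sum_congr rfl fun i _ => ?_
      rw [cutN_sq, bcf, neg_one_mul]
  have hS0 : 0 ≤ S := sum_nonneg fun n _ => by positivity
  set f : ℤ → ℕ → ℝ → ℂ := fun s j x => Pool.QN.FA s (s * (2 ^ j : ℕ)) (2 ^ j) (bcf N a s j) φ x with hf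
  have hFd : ∀ x, F φ (Icc (-(N : ℤ)) N) a x = a 0 + ∑ j ∈ range L, (f 1 j x + f (-1) j x) := by
    intro x
    unfold F
    rw [hdyd ℂ N (fun n => a n * e (n * x + n ^ 2 * φ x))]
    have e0 : a 0 * e ((0 : ℤ) * x + (0 : ℤ) ^ 2 * φ x) = a 0 := by
      unfold e
      simp
    rw [e0]
    congr 1
    refine sum_congr rfl fun j _ => ?_
    rw [hf]
    simp only
    rw [FA_bcf, FA_bcf]
    congr 1
    · refine sum_congr rfl fun i _ => ?_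
      rw [one_mul]
    · refine sum_congr rfl fun i _ => ?_
      rw [neg_one_mul]
  have hc' : Continuous φ := hsm.continuous
  have hfc : ∀ s j, Continuous (f s j) := by
    intro s j
    rw [hf]
    unfold Pool.QN.FA Pool.QN.uu Pool.QN.ee
    fun_prop
  have hFc : Continuous fun x => ‖F φ (Icc (-(N : ℤ)) N) a x‖ ^ 4 := by
    unfold F e
    fun_prop
  have hint : ∀ s j, IntervalIntegrable (fun x => ‖f s j x‖ ^ 4) volume (-1) 1 := fun s j =>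
    ((hfc s j).norm.pow 4).intervalIntegrable _ _
  have h1 : ∫ x in (-1 : ℝ)..1, ‖F φ (Icc (-(N : ℤ)) N) a x‖ ^ 4 ≤
      ∫ x in (-1 : ℝ)..1, (2 * (L : ℝ) + 1) ^ 3 *
        (‖a 0‖ ^ 4 + ∑ j ∈ range L, (‖f 1 j x‖ ^ 4 + ‖f (-1) j x‖ ^ 4)) := by
    refine intervalIntegral.integral_mono_on (by norm_num) (hFc.intervalIntegrable _ _) ?_ ?_
    · exact (continuous_const.mul (continuous_const.add (continuous_finset_sum _ fun j _ =>
        ((hfc 1 j).norm.pow 4).add ((hfc (-1) j).norm.pow 4)))).intervalIntegrable _ _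
    · intro x _
      rw [hFd x]
      exact hpwm L (a 0) (fun j => f 1 j x) (fun j => f (-1) j x)
  have h2 : ∫ x in (-1 : ℝ)..1, (2 * (L : ℝ) + 1) ^ 3 *
        (‖a 0‖ ^ 4 + ∑ j ∈ range L, (‖f 1 j x‖ ^ 4 + ‖f (-1) j x‖ ^ 4)) =
      (2 * (L : ℝ) + 1) ^ 3 * (2 * ‖a 0‖ ^ 4 + ∑ j ∈ range L,
        ((∫ x in (-1 : ℝ)..1, ‖f 1 j x‖ ^ 4) + ∫ x in (-1 : ℝ)..1, ‖f (-1) j x‖ ^ 4)) := by
    exact int_sum L _ (‖a 0‖ ^ 4) (fun j x => ‖f 1 j x‖ ^ 4) (fun j x => ‖f (-1) j x‖ ^ 4)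
      (fun j => (hfc 1 j).norm.pow 4) (fun j => (hfc (-1) j).norm.pow 4)
  have h3 : ∀ (s : ℤ), (s = 1 ∨ s = -1) → ∀ j ∈ range L,
      ∫ x in (-1 : ℝ)..1, ‖f s j x‖ ^ 4 ≤ Cb * (N : ℝ) ^ γ * U s j ^ 2 := by
    intro s hs j hj
    rw [mem_range, hL, Nat.lt_succ_iff] at hj
    refine (hb s (2 ^ j) (bcf N a s j) hs Nat.one_le_two_pow).trans ?_
    have h4 : 2 ^ j ≤ N := (Nat.pow_le_pow_right (by norm_num) hj).trans (Nat.pow_log_le_self 2 (by omega))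
    have h5 : ((2 ^ j : ℕ) : ℝ) ≤ N := by exact_mod_cast h4
    have h6 : ((2 ^ j : ℕ) : ℝ) ^ γ ≤ (N : ℝ) ^ γ := Real.rpow_le_rpow (Nat.cast_nonneg _) h5 hγ0
    exact mul_le_mul_of_nonneg_right (mul_le_mul_of_nonneg_left h6 hCb.le) (by positivity)
  have hle : ∀ j ∈ range L, U 1 j + U (-1) j ≤ S := by
    intro j hj
    rw [hSd]
    have h7 : U 1 j + U (-1) j ≤ ∑ j ∈ range L, (U 1 j + U (-1) j) :=
      single_le_sum (f := fun j => U 1 j + U (-1) j) (fun i _ => add_nonneg (hU0 1 i) (hU0 (-1) i)) hj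
    have : 0 ≤ ‖a 0‖ ^ 2 := by positivity
    linarith
  have hle0 : ‖a 0‖ ^ 2 ≤ S := by
    rw [hSd]
    have : 0 ≤ ∑ j ∈ range L, (U 1 j + U (-1) j) :=
      sum_nonneg fun i _ => add_nonneg (hU0 1 i) (hU0 (-1) i)
    linarith
  have h8 : ‖a 0‖ ^ 4 + ∑ j ∈ range L, (U 1 j ^ 2 + U (-1) j ^ 2) ≤ S ^ 2 := by
    calc ‖a 0‖ ^ 4 + ∑ j ∈ range L, (U 1 j ^ 2 + U (-1) j ^ 2)
        ≤ ‖a 0‖ ^ 2 * S + ∑ j ∈ range L, (U 1 j + U (-1) j) * S := by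
          refine add_le_add ?_ (sum_le_sum fun j hj => ?_)
          · have : ‖a 0‖ ^ 4 = ‖a 0‖ ^ 2 * ‖a 0‖ ^ 2 := by ring
            rw [this]
            gcongr
          · have h9 := hle j hj
            have h10 := hU0 1 j
            have h11 := hU0 (-1) j
            nlinarith
      _ = (‖a 0‖ ^ 2 + ∑ j ∈ range L, (U 1 j + U (-1) j)) * S := by rw [add_mul, sum_mul]
      _ = S ^ 2 := by rw [← hSd]; ring
  have hNγ : 1 ≤ (N : ℝ) ^ γ := Real.one_le_rpow hN1 hγ0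
  have h12 : 2 * ‖a 0‖ ^ 4 + ∑ j ∈ range L,
        ((∫ x in (-1 : ℝ)..1, ‖f 1 j x‖ ^ 4) + ∫ x in (-1 : ℝ)..1, ‖f (-1) j x‖ ^ 4) ≤
      (2 + Cb) * (N : ℝ) ^ γ * S ^ 2 := by
    have h13 : ∑ j ∈ range L,
        ((∫ x in (-1 : ℝ)..1, ‖f 1 j x‖ ^ 4) + ∫ x in (-1 : ℝ)..1, ‖f (-1) j x‖ ^ 4) ≤
        Cb * (N : ℝ) ^ γ * ∑ j ∈ range L, (U 1 j ^ 2 + U (-1) j ^ 2) := by
      rw [mul_sum]
      refine sum_le_sum fun j hj => ?_
      have := h3 1 (Or.inl rfl) j hj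
      have := h3 (-1) (Or.inr rfl) j hj
      linarith
    set V := ∑ j ∈ range L, (U 1 j ^ 2 + U (-1) j ^ 2) with hV
    have hV0 : 0 ≤ V := sum_nonneg fun i _ => by positivity
    have h14 : ‖a 0‖ ^ 4 ≤ S ^ 2 := by linarith
    have h15 : V ≤ S ^ 2 := by
      have : 0 ≤ ‖a 0‖ ^ 4 := by positivity
      linarith
    calc _ ≤ 2 * S ^ 2 + Cb * (N : ℝ) ^ γ * S ^ 2 := by
          refine add_le_add (by linarith) (h13.trans ?_)
          gcongr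
      _ ≤ 2 * ((N : ℝ) ^ γ * S ^ 2) + Cb * (N : ℝ) ^ γ * S ^ 2 := by
          have : S ^ 2 ≤ (N : ℝ) ^ γ * S ^ 2 := le_mul_of_one_le_left (by positivity) hNγ
          linarith
      _ = _ := by ring
  refine h1.trans ?_
  rw [h2]
  have h16 : (2 * (L : ℝ) + 1) ^ 3 ≤ 27 * (Cl * (N : ℝ) ^ (ε / 2)) := by
    have h17 := two_L N hN
    have h18 : (2 * (L : ℝ) + 1) ^ 3 ≤ (3 * (1 + Real.log N)) ^ 3 := by
      gcongr
    have h19 := hl N hN1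
    calc (2 * (L : ℝ) + 1) ^ 3 ≤ (3 * (1 + Real.log N)) ^ 3 := h18
      _ = 27 * (1 + Real.log N) ^ 3 := by ring
      _ ≤ _ := by linarith
  have h20 : (N : ℝ) ^ (ε / 2) * (N : ℝ) ^ γ = (N : ℝ) ^ (1 / 2 - 1 / (3 * k) + ε : ℝ) := by
    rw [← Real.rpow_add hN0]
    congr 1
    rw [hγ]
    ring
  calc (2 * (L : ℝ) + 1) ^ 3 * (2 * ‖a 0‖ ^ 4 + ∑ j ∈ range L,
        ((∫ x in (-1 : ℝ)..1, ‖f 1 j x‖ ^ 4) + ∫ x in (-1 : ℝ)..1, ‖f (-1) j x‖ ^ 4))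
      ≤ 27 * (Cl * (N : ℝ) ^ (ε / 2)) * ((2 + Cb) * (N : ℝ) ^ γ * S ^ 2) := by
        refine mul_le_mul h16 h12 ?_ (by positivity)
        refine add_nonneg (by positivity) (sum_nonneg fun j _ => add_nonneg ?_ ?_) <;>
          exact intervalIntegral.integral_nonneg (by norm_num) fun x _ => by positivity
    _ = 27 * Cl * (2 + Cb) * ((N : ℝ) ^ (ε / 2) * (N : ℝ) ^ γ) * S ^ 2 := by ring
    _ = _ := by rw [h20]

/-- from fourth powers to norms -/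
theorem root4 (I C N E S : ℝ) (hI : 0 ≤ I) (hC : 0 ≤ C) (hN : 0 ≤ N) (hS : 0 ≤ S) (h : I ≤ C * N ^ E * S ^ 2) :
    I ^ (1 / 4 : ℝ) ≤ C ^ (1 / 4 : ℝ) * N ^ (E / 4) * Real.sqrt S := by
  refine (Real.rpow_le_rpow hI h (by norm_num)).trans (le_of_eq ?_)
  rw [Real.mul_rpow (by positivity) (by positivity), Real.mul_rpow hC (by positivity)]
  congr 1
  · congr 1
    rw [← Real.rpow_mul hN]
    congr 1
    ring
  · rw [Real.sqrt_eq_rpow, ← Real.rpow_natCast, ← Real.rpow_mul hS]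
    norm_num

/-- part (3): finite type -/
theorem part3 (hkej : S_KEJ) (hrog : S_ROG) (hclj : S_CLJ) (hnc1 : S_NC1) (hftz : S_FTZ)
    (hind : S_IND) (hblk : S_BLK) (hdyd : S_DYD) (hpwm : S_PWM) (k : ℕ) (hk : 2 ≤ k) (φ : ℝ → ℝ)
    (hφ : FT k φ) (ε : ℝ) (hε : 0 < ε) :
    ∃ C : ℝ, 0 < C ∧ ∀ (N : ℕ) (a : ℤ → ℂ), 1 ≤ N →
      (∫ x in (-1 : ℝ)..1, ‖F φ (Icc (-(N : ℤ)) N) a x‖ ^ 4) ^ (1 / 4 : ℝ) ≤
        C * (N : ℝ) ^ (1 / 8 - 1 / (12 * k) + ε : ℝ) *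
          Real.sqrt (∑ n ∈ Icc (-(N : ℤ)) N, ‖a n‖ ^ 2) := by
  obtain ⟨C, hC, h⟩ := ft_fourth hkej hrog hclj hnc1 hftz hind hblk hdyd hpwm k hk φ hφ (4 * ε)
    (by positivity)
  refine ⟨C ^ (1 / 4 : ℝ), by positivity, fun N a hN => ?_⟩
  have hI0 : 0 ≤ ∫ x in (-1 : ℝ)..1, ‖F φ (Icc (-(N : ℤ)) N) a x‖ ^ 4 :=
    intervalIntegral.integral_nonneg (by norm_num) fun x _ => by positivity
  have h1 := root4 _ C N _ _ hI0 hC.le (Nat.cast_nonneg N) (sum_nonneg fun n _ => by positivity) (h N a hN)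
  refine h1.trans (le_of_eq ?_)
  congr 3
  have hk0 : (0 : ℝ) < k := by exact_mod_cast (by omega : 0 < k)
  field_simp
  ring

end Pool.Agent.H79.QN
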