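import Pool.Agent.H79.QN.Defs

/-!
# Quartic norm of parabolic exponential sums with curved phase: statements of the rows of board `qn`

Goal: if `φ', φ''` have no zeros on `[-1, 1]` then
`∫_{-1}^{1} |∑_{|n| ≤ N} a_n e(n x + n² φ(x))|⁴ dx ≤ C N^(1/3) (1 + log N)^5 (∑ |a_n|²)²`
(exponent `1 / 12` for the `L⁴` norm).  Plan: `F² = ∑_z a a e(s x + m φ)` over pairs `z = (n₁, n₂)`; the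
kernel `∫ e(u x + k φ)` is `O(|u|^(-1/2))` if `|k| ≤ C₁ |u|` and `O(1 / |k|)` otherwise; pairs are put into
`O(N^(1/3) log²)` classes such that inside a class all row sums of the kernel are `O(log³)`.  The
number theory is the count of lattice points in thick short arcs of circles (`S_ARC`).

Row `XXX`: `theorem xxx (h1 : S_AAA) ... : S_XXX` in `Pool/Agent/H<k>/QN/XXX.lean`, importing this file,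
namespace `Pool.Agent.H79.QN`; only axioms `propext`, `Classical.choice`, `Quot.sound`.
-/

set_option autoImplicit false

namespace Pool.Agent.H79.QN

open Finset

/-! ## Oscillatory integrals -/

/-- FDT (first derivative test).  `e(θ) = (e(θ))' / (2 π i θ')`; integrate by parts:
`∫ e(θ) = [e(θ) / (2 π i θ')] + (1 / (2 π i)) ∫ e(θ) θ'' / θ'²`.  `θ'` has constant sign on `[a, b]` (continuous,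
no zero) and is monotone, so `∫ |θ''| / θ'² = |1 / θ'(a) - 1 / θ'(b)| ≤ 1 / l`; total `≤ 3 / (2 π l) ≤ 1 / l`. -/
def S_FDT : Prop := ∀ (θ : ℝ → ℝ) (a b l : ℝ), a ≤ b → ContDiff ℝ 2 θ →
  (MonotoneOn (deriv θ) (Set.Icc a b) ∨ AntitoneOn (deriv θ) (Set.Icc a b)) → 0 < l →
  (∀ x ∈ Set.Icc a b, l ≤ |deriv θ x|) → ‖∫ x in a..b, e (θ x)‖ ≤ 1 / l

/-- SDT (second derivative test).  `θ''` is continuous without zero, so of constant sign, and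
`|θ' x - θ' y| ≥ μ |x - y|`.  Let `x₀ ∈ [a, b]` be the zero of `θ'`, or, if there is none, the end point with the
smaller `|θ'|`; then `|θ' x| ≥ μ |x - x₀|`.  With `δ = 1 / √μ`: FDT on `[a, x₀ - δ]` and `[x₀ + δ, b]` (if nonempty)
gives `1 / (μ δ)` each, the rest has length at most `2 δ`: total `4 / √μ`. -/
def S_SDT : Prop := ∀ (θ : ℝ → ℝ) (a b μ : ℝ), a ≤ b → ContDiff ℝ 2 θ → 0 < μ →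
  (∀ x ∈ Set.Icc a b, μ ≤ |deriv (deriv θ) x|) → ‖∫ x in a..b, e (θ x)‖ ≤ 8 / Real.sqrt μ

/-- KER (kernel bounds; needs FDT, SDT).  By compactness `α ≤ |φ'| ≤ β`, `μ ≤ |φ''|` on `[-1, 1]`, `α, μ > 0`.
`θ = u x + k φ`, `C₁ = 1 + 2 / α`.  `b1`: `|e| = 1`.  `b3`: `|θ'| ≥ α |k| - |u| ≥ α |k| / 2`, `θ'` is monotone or antitone
(`φ''` has constant sign): FDT.  `b2`: if `|u| ≥ 2 β |k|` then `|θ'| ≥ |u| / 2`: FDT gives `2 / |u| ≤ 2 / √|u|`;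
otherwise `|k| > |u| / (2 β)` and SDT gives `8 / √(μ |u| / (2 β))`. -/
def S_KER : Prop := ∀ φ : ℝ → ℝ, Ph φ → ∃ C₁ Ck : ℝ, KB φ C₁ Ck

/-! ## Quadratic forms -/

/-- SCH (Schur).  Expand `‖∑‖² = ∑_{z, z'} c z conj (c z') ph z conj (ph z')`; the integral of
`ph z conj (ph z')` is `ker φ (sz z - sz z') (mz z - mz z')`; `|c z c z'| ≤ (|c z|² + |c z'|²) / 2` and
`‖ker φ (-u) (-k)‖ = ‖ker φ u k‖`. -/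
def S_SCH : Prop := ∀ (φ : ℝ → ℝ) (Z : Finset (ℤ × ℤ)) (c : ℤ × ℤ → ℂ) (R : ℝ), Continuous φ → 0 ≤ R →
  (∀ z ∈ Z, ∑ z' ∈ Z, ‖ker φ (sz z - sz z') (mz z - mz z')‖ ≤ R) →
  ∫ x in (-1 : ℝ)..1, ‖∑ z ∈ Z, c z * ph φ z x‖ ^ 2 ≤ R * ∑ z ∈ Z, ‖c z‖ ^ 2

/-- CLA (classes; needs SCH).  Write the sum over `Z` as the sum over the classes `t ∈ Z.image cl`,
Cauchy-Schwarz over the classes pointwise, SCH for each class. -/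
def S_CLA : Prop := ∀ (ι : Type) [DecidableEq ι] (φ : ℝ → ℝ) (Z : Finset (ℤ × ℤ)) (c : ℤ × ℤ → ℂ) (R : ℝ)
  (cl : ℤ × ℤ → ι), Continuous φ → 0 ≤ R →
  (∀ z ∈ Z, ∑ z' ∈ Z with cl z' = cl z, ‖ker φ (sz z - sz z') (mz z - mz z')‖ ≤ R) →
  ∫ x in (-1 : ℝ)..1, ‖∑ z ∈ Z, c z * ph φ z x‖ ^ 2 ≤
    ((Z.image cl).card : ℝ) * R * ∑ z ∈ Z, ‖c z‖ ^ 2

/-! ## Elementary counting -/

/-- RNG (range of the resonance).  `u = s - s'`; equal signs give `|s + s'| = |s| + |s'|`, so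
`|u| |s + s'| ≤ 2 C₁ |u| + |p² - p'²| ≤ 2 C₁ |u| + 4 P²`.  (1) `|s + s'| ≥ ρ / 4` and `≥ 4 C₁`:
`|u| ≤ 4 P² / (|s + s'| / 2) ≤ 32 P² / ρ`.  (2) `|s + s'| < 4 C₁`: `|u| ≤ 4 C₁` and
`ρ² ≤ s² + p² + 1 ≤ 16 C₁² + 4 P² ≤ 20 C₁² P²`, so `P² / ρ ≥ P / (5 C₁) ≥ 1 / (5 C₁)`.  (3) `4 C₁ ≤ |s + s'| < ρ / 4`:
`(|p| + 1)² ≥ p² + 1 ≥ ρ² - ρ² / 16`, so `2 P > 0.96 ρ` and `|u| ≤ ρ / 4 ≤ 2 P² / ρ`.  `C₂ = 32 + 20 C₁²`. -/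
def S_RNG : Prop := ∀ C₁ : ℝ, 1 ≤ C₁ → ∃ C₂ : ℝ, 0 < C₂ ∧ ∀ (P ρ : ℝ) (w w' : ℤ × ℤ), 1 ≤ P → 1 ≤ ρ →
  Cl P ρ w → Cl P ρ w' → SS w w' →
  |(nsq w : ℝ) - nsq w'| ≤ 2 * C₁ * |(w.1 : ℝ) - w'.1| →
  |(w.1 : ℝ) - w'.1| ≤ C₂ * (P ^ 2 / ρ)

/-- CTB (count).  All `w' = (s', p') ∈ S` have `|s - s'| ≤ K`, `||w|² - |w'|²| ≤ 2 K`, signs of `w`.
(1) `K ≤ P`: at most `2 K + 1 ≤ 3 K` values `s'`; for each `s'` two possible `p', p''` satisfy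
`|p' - p''| (|p'| + |p''|) = |p'² - p''²| ≤ 4 K`; if `P ≥ 2` then `|p'| + |p''| ≥ 2 (P - 1) ≥ P`, so `|p' - p''| ≤ 4`, at most
`5` values; if `P < 2`, `|p'| ≤ 2`: at most `3` values of given sign.  (2) `K > P`, `4 P ≤ ρ`: at most `2 P + 1 ≤ 3 P`
values `p'`; for each, `s'² ≥ ρ² - 1 - 4 P² ≥ ρ² / 2`, so `|s' - s''| ρ ≤ |s'² - s''²| ≤ 4 K`: at most `1 + 4 K / ρ` values;
`3 P (1 + 4 K / ρ) ≤ 6 K`.  (3) `K > P`, `4 P > ρ`: at most `2 ρ + 1 ≤ 9 P` values `s'` (given sign, `|s'| < 2 ρ`), for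
each at most `3 + 4 K / P` values `p'`: `9 P (3 + 4 K / P) ≤ 63 K`. -/
def S_CTB : Prop := ∀ (P ρ K : ℝ) (w : ℤ × ℤ) (S : Finset (ℤ × ℤ)), 1 ≤ P → 1 ≤ ρ → 1 ≤ K → Cl P ρ w →
  (∀ w' ∈ S, Cl P ρ w' ∧ SS w w' ∧ |(nsq w : ℝ) - nsq w'| ≤ 2 * K ∧ |(w.1 : ℝ) - w'.1| ≤ K) →
  (S.card : ℝ) ≤ 100 * K

/-- SMB (needs CTB).  Dyadic: the `w'` with `2 ^ t ≤ ||w|² - |w'|²| < 2 ^ (t + 1)` are at most `100 * 2 ^ t` by CTB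
with `K = 2 ^ t` (`|s - s'| ≤ ||w|² - |w'|²| / 2 ≤ K`), so contribute at most `100`; `2 ^ t ≤ 16 N²`, so there are at
most `5 + 2 log₂ N` values of `t`. -/
def S_SMB : Prop := ∃ C : ℝ, 0 < C ∧ ∀ (N : ℕ) (P ρ : ℝ) (w : ℤ × ℤ) (S : Finset (ℤ × ℤ)), 1 ≤ N →
  1 ≤ P → 1 ≤ ρ → Cl P ρ w →
  (∀ w' ∈ S, Cl P ρ w' ∧ SS w w' ∧ nsq w ≠ nsq w' ∧
    2 * |(w.1 : ℝ) - w'.1| ≤ |(nsq w : ℝ) - nsq w'| ∧ |(nsq w : ℝ) - nsq w'| ≤ 16 * (N : ℝ) ^ 2) →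
  ∑ w' ∈ S, 1 / |(nsq w : ℝ) - nsq w'| ≤ C * (1 + Real.log N)

/-! ## Lattice points in short thick arcs of circles

`H = r ^ (1 / 3) / 2`.  Identities: `nsq z * nsq w = dot z w ^ 2 + crs z w ^ 2` and
`nsq z * crs v d = dot z v * crs z d - crs z v * dot z d`.  Lengths: `|v| = √(nsq v)`. -/

/-- AC1.  `v = z - z'`, `w = z - z₀`, `w' = z' - z₀`: `2 dot z₀ w + nsq w = nsq z - nsq z₀`, so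
`|dot z₀ v| ≤ K + (|w| + |w'|) |v| / 2 ≤ (K + l) |v| ≤ r |v| / 500` if `v ≠ 0` (then `|v| ≥ 1`), and
`r² |v|² = dot z₀ v ^ 2 + crs z₀ v ^ 2`. -/
def S_AC1 : Prop := ∀ (z₀ : ℤ × ℤ) (r K l : ℝ) (z z' : ℤ × ℤ), AH z₀ r K l → Mem z₀ K l z → Mem z₀ K l z' →
  r ^ 2 * nsq (z - z') ≤ 1.21 * (crs z₀ (z - z') : ℝ) ^ 2

/-- AC2 (needs AC1).  `a = z₂ - z₁`, `b = z₃ - z₁`; by AC1 `|a|, |b| ≤ 1.1 H`.  `|z₁| ≥ r - l ≥ 0.99 r`,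
`|dot z₁ a| ≤ K + |a|² / 2` (from `nsq z₂ - nsq z₁ = 2 dot z₁ a + nsq a`), same for `b`.  So
`|z₁| |crs a b| ≤ |dot z₁ a| |b| + |a| |dot z₁ b| ≤ 2.2 H K + 1.4 H³ < 0.99 r` and the integer `crs a b` is `0`. -/
def S_AC2 : Prop := ∀ (z₀ : ℤ × ℤ) (r K l : ℝ) (z₁ z₂ z₃ : ℤ × ℤ), AH z₀ r K l → Mem z₀ K l z₁ →
  Mem z₀ K l z₂ → Mem z₀ K l z₃ → |(crs z₀ (z₂ - z₁) : ℝ)| ≤ r * (r ^ (1 / 3 : ℝ) / 2) →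
  |(crs z₀ (z₃ - z₁) : ℝ)| ≤ r * (r ^ (1 / 3 : ℝ) / 2) → crs (z₂ - z₁) (z₃ - z₁) = 0

/-- AC3 (values of a quadratic polynomial).  `q(x) = a x² + 2 b x`, `ν = |J| ≥ 3`.  Let `j₀ = min J`, `j₂ = max J` and
`j₁ ∈ J` a median: `j₁ - j₀, j₂ - j₁ ≥ ν / 4`, `j₂ - j₀ ≥ 2 ν / 3`.  Put `g = 2 (a j₁ + b)`.
`g = (q₂ - q₁) / (j₂ - j₁) - a (j₂ - j₁) ≤ 4 K / ν`, `g = (q₁ - q₀) / (j₁ - j₀) + a (j₁ - j₀) ≥ - 4 K / ν`;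
`a (j₂ - j₀) = (q₂ - q₁) / (j₂ - j₁) - (q₁ - q₀) / (j₁ - j₀) ≤ 8 K / ν`, so `a ν² ≤ 12 K`.  For `j ∈ J`, `g_j = 2 (a j + b)`:
`g_j² - g² = 4 a (q(j) - q(j₁))`, so `g_j² ≤ 16 K² / ν² + 48 K² / ν²`. -/
def S_AC3 : Prop := ∀ (J : Finset ℤ) (a b K : ℝ), 0 < a → 0 ≤ K → 3 ≤ J.card →
  (∀ i ∈ J, ∀ j ∈ J, |(a * (i : ℝ) ^ 2 + 2 * b * i) - (a * (j : ℝ) ^ 2 + 2 * b * j)| ≤ K) →
  a * (J.card : ℝ) ^ 2 ≤ 36 * K ∧ ∀ j ∈ J, |2 * (a * (j : ℝ) + b)| * J.card ≤ 20 * K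

/-- AC4 (collinear lattice points).  Take `b ≠ b'` in `W`, `b' - b = g d`, `g` the gcd of the coordinates; for
`z ∈ W`, `crs d (z - b) = 0` and `d` primitive give `z - b = j d`. -/
def S_AC4 : Prop := ∀ W : Finset (ℤ × ℤ), 2 ≤ W.card →
  (∀ z₁ ∈ W, ∀ z₂ ∈ W, ∀ z₃ ∈ W, crs (z₂ - z₁) (z₃ - z₁) = 0) →
  ∃ d b : ℤ × ℤ, IsCoprime d.1 d.2 ∧ ∀ z ∈ W, ∃ j : ℤ, z.1 = b.1 + j * d.1 ∧ z.2 = b.2 + j * d.2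

/-- AC5 (a window; needs AC1 AC2 AC3 AC4).  AC2, AC4 give `W ⊆ b + ℤ d`.  Two different points differ by `j d`,
`j ≠ 0`, so `|d| ≤ 1.1 H ≤ r ^ (1 / 3)` and `crs z₀ d ≠ 0` by AC1; replace `d` by `-d` if negative.
`nsq (b + j d) = nsq d j² + 2 (dot b d) j + nsq b`: AC3 with `2 K` (`a = nsq d`, `b = dot b d`, `J` = the set of the
`j`); `2 (a j + b) = 2 dot z d`. -/
def S_AC5 : Prop := ∀ (z₀ : ℤ × ℤ) (r K l : ℝ) (W : Finset (ℤ × ℤ)), AH z₀ r K l → (∀ z ∈ W, Mem z₀ K l z) →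
  3 ≤ W.card → (∀ z ∈ W, ∀ z' ∈ W, |(crs z₀ (z - z') : ℝ)| ≤ r * (r ^ (1 / 3 : ℝ) / 2)) →
  ∃ d : ℤ × ℤ, IsCoprime d.1 d.2 ∧ 0 < crs z₀ d ∧ (nsq d : ℝ) * (W.card : ℝ) ^ 2 ≤ 72 * K ∧
    (nsq d : ℝ) ≤ r ^ (2 / 3 : ℝ) ∧ ∀ z ∈ W, |(dot z d : ℝ)| * W.card ≤ 20 * K

/-- AC6 (two points with the same direction).  `v = z' - z ≠ 0`.  `|z| ≥ 0.99 r`; `|dot z v| ≤ K + l |v| ≤ r |v| / 500`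
(as in AC1, AC2, `|v| ≤ 2 l`), `|dot z d| ≤ B ≤ 20 K ≤ r / 50 ≤ r |d| / 50`; so
`|crs v d| ≤ (|dot z v| |d| + |v| |dot z d|) / |z| ≤ 0.03 |v| |d|`, `|dot v d| ≥ 0.9 |v| |d|`; and `|dot v d| ≤ 2 B`,
`|crs z₀ v| ≤ r |v|`. -/
def S_AC6 : Prop := ∀ (z₀ : ℤ × ℤ) (r K l B : ℝ) (d z z' : ℤ × ℤ), AH z₀ r K l → 1 ≤ nsq d → 0 ≤ B →
  B ≤ 20 * K → Mem z₀ K l z → Mem z₀ K l z' → |(dot z d : ℝ)| ≤ B → |(dot z' d : ℝ)| ≤ B →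
  (crs z₀ (z - z') : ℝ) ^ 2 * nsq d ≤ 16 * r ^ 2 * B ^ 2

/-- AC7 (number of windows with a given direction; needs AC6).  By AC6 the numbers `crs z₀ z` of the chosen points
lie within `4 r B / |d|` of each other, so two windows differ by at most `8 B / (|d| r ^ (1 / 3)) + 1`. -/
def S_AC7 : Prop := ∀ (z₀ : ℤ × ℤ) (r K l B : ℝ) (d : ℤ × ℤ) (T : Finset ℤ), AH z₀ r K l → 1 ≤ nsq d →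
  0 ≤ B → B ≤ 20 * K →
  (∀ k ∈ T, ∃ z, Mem z₀ K l z ∧ win z₀ r z = k ∧ |(dot z d : ℝ)| ≤ B) →
  (T.card : ℝ) ≤ 2 + 8 * B / (Real.sqrt (nsq d) * r ^ (1 / 3 : ℝ))

/-- AC8 (number of directions).  `σ(d) = dot z₀ d / crs z₀ d`.  `|dot z₀ d| ≤ 20 K + 2 l h ≤ 0.03 r h`, so
`crs z₀ d ≥ 0.99 r h`, `|σ| ≤ 21 K / (r h) + 2.1 l / r`.  For `d ≠ d'`: primitive, not opposite (`crs z₀ > 0`), so not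
parallel, `|crs d d'| ≥ 1` and `|σ(d) - σ(d')| = r² |crs d d'| / (crs z₀ d crs z₀ d') ≥ 1 / (4 h²)` (`crs z₀ d ≤ r |d| < 2 r h`).
So `|D| ≤ 1 + 8 h² (21 K / (r h) + 2.1 l / r) ≤ 1 + 0.2 + 17 l h² / r` (`K h ≤ r / 1000`). -/
def S_AC8 : Prop := ∀ (z₀ : ℤ × ℤ) (r K l h : ℝ) (D : Finset (ℤ × ℤ)), AH z₀ r K l → 1 ≤ h →
  h ≤ r ^ (1 / 3 : ℝ) →
  (∀ d ∈ D, IsCoprime d.1 d.2 ∧ 0 < crs z₀ d ∧ h ^ 2 ≤ (nsq d : ℝ) ∧ (nsq d : ℝ) < 4 * h ^ 2 ∧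
    |(dot z₀ d : ℝ)| ≤ 20 * K + 2 * l * h) →
  (D.card : ℝ) ≤ 2 + 20 * (l * h ^ 2 / r)

/-- ARC (needs AC5 AC7 AC8).  `W_k = {z ∈ S : win z = k}`.  `|crs z₀ z| = |crs z₀ (z - z₀)| ≤ r l`, so there are at most
`4 l / r ^ (1 / 3) + 2` windows; those with `|W_k| ≤ 2` contribute at most twice this.  Inside a window
`|crs z₀ (z - z')| ≤ r H`; for `|W_k| ≥ 3` take `d_k` from AC5, `a = Nat.log 4 (nsq d_k)`, `b = Nat.log 2 |W_k|`, `h = 2 ^ a`.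
For fixed `(a, b)`: `|dot z₀ d| ≤ |dot z d| + l |d| ≤ 20 K + 2 l h`, so at most `2 + 20 l h² / r` directions (AC8;
`h ≤ r ^ (1 / 3)`), for each at most `2 + 8 B / (h r ^ (1 / 3))` windows, `B = 20 K / 2 ^ b` (AC7), each with at most
`2 ^ (b + 1)` points; `2 ^ b ≤ √(72 K) / h`, `K / r ^ (1 / 3) ≤ √K / 30`: in all at most
`(2 + 20 l h² / r) * 45 √K / h ≤ 90 √K + 900 l √K / r ^ (2 / 3)`.  There are at most `(1 + log r)²` pairs `(a, b)`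
(`4 ^ a ≤ r ^ (2 / 3)`, `4 ^ b ≤ 72 K ≤ r ^ (2 / 3)`). -/
def S_ARC : Prop := ∃ C : ℝ, 0 < C ∧ ∀ (z₀ : ℤ × ℤ) (r K l : ℝ) (S : Finset (ℤ × ℤ)), AH z₀ r K l →
  (∀ z ∈ S, Mem z₀ K l z) →
  (S.card : ℝ) ≤ C * (1 + Real.log r) ^ 2 *
    (Real.sqrt K + l / r ^ (1 / 3 : ℝ) + l * Real.sqrt K / r ^ (2 / 3 : ℝ))

/-- CTA (needs ARC).  `z₀ = w`, `r = |w|`, `K = 2 C₁ κ`, `l = (2 C₁ + 7) κ ρ / P`.  `P ≤ |p| + 1 ≤ 2 ρ + 1 ≤ 3 ρ`;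
`1 ≤ κ ≤ c₀ P² / ρ^(4/3) ≤ 9 c₀ ρ^(2/3)`, so for small `c₀` (depending on `C₁`) `ρ` is large, `P ≥ 2` and
`ρ / 2 ≤ r ≤ 2 ρ`; `AH` holds: `2000 C₁ κ ≤ 18000 C₁ c₀ ρ^(2/3) ≤ r^(2/3)`,
`1000 l ≤ 1000 (2 C₁ + 7) c₀ P / ρ^(1/3) ≤ 3000 (2 C₁ + 7) c₀ ρ^(2/3) ≤ r`.  `Mem`: for `w' = (s', p')`:
`|p - p'| |p + p'| ≤ 2 C₁ κ + 4 ρ κ` and `|p + p'| = |p| + |p'| ≥ 2 (P - 1) ≥ P`, so
`|w - w'| ≤ κ + (2 C₁ + 4) ρ κ / P ≤ l`.  ARC gives the bound: `l / r^(1/3) ≤ C κ ρ^(2/3) / P ≤ C √κ` and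
`l √κ / r^(2/3) ≤ C √κ (κ ρ^(1/3) / P) ≤ C √κ` since `√κ ≤ √c₀ P / ρ^(2/3)` and `κ ≤ c₀ P² / ρ^(4/3) ≤ 3 c₀ P / ρ^(1/3)`. -/
def S_CTA : Prop := ∀ C₁ : ℝ, 1 ≤ C₁ → ∃ c₀ C : ℝ, 0 < c₀ ∧ 0 < C ∧ ∀ (P ρ κ : ℝ) (w : ℤ × ℤ)
  (S : Finset (ℤ × ℤ)), 1 ≤ P → 1 ≤ ρ → 1 ≤ κ → κ ≤ c₀ * P ^ 2 / ρ ^ (4 / 3 : ℝ) → Cl P ρ w →
  (∀ w' ∈ S, Cl P ρ w' ∧ SS w w' ∧ |(w.1 : ℝ) - w'.1| ≤ κ ∧ |(nsq w : ℝ) - nsq w'| ≤ 2 * C₁ * κ) →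
  (S.card : ℝ) ≤ C * (1 + Real.log ρ) ^ 2 * Real.sqrt κ

/-- SMA (needs CTA).  Dyadic: the `w'` with `2 ^ t ≤ |s - s'| < 2 ^ (t + 1)` are at most `C (1 + log ρ)² √(2 ^ (t + 1))`
by CTA with `κ = 2 ^ (t + 1)` (`c₀` here is half of the one of CTA: `2 ^ (t + 1) ≤ 2 L`), so contribute
`≤ 2 C (1 + log ρ)²`; `2 ^ t ≤ L ≤ c₀ P² / ρ^(4/3) ≤ 9 c₀ ρ^(2/3)` (`P ≤ 3 ρ`), so `O(1 + log ρ)` values of `t`. -/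
def S_SMA : Prop := ∀ C₁ : ℝ, 1 ≤ C₁ → ∃ c₀ C : ℝ, 0 < c₀ ∧ 0 < C ∧ ∀ (P ρ L : ℝ) (w : ℤ × ℤ)
  (S : Finset (ℤ × ℤ)), 1 ≤ P → 1 ≤ ρ → L ≤ c₀ * P ^ 2 / ρ ^ (4 / 3 : ℝ) → Cl P ρ w →
  (∀ w' ∈ S, Cl P ρ w' ∧ SS w w' ∧ w.1 ≠ w'.1 ∧ |(w.1 : ℝ) - w'.1| ≤ L ∧
    |(nsq w : ℝ) - nsq w'| ≤ 2 * C₁ * |(w.1 : ℝ) - w'.1|) →
  ∑ w' ∈ S, 1 / Real.sqrt |(w.1 : ℝ) - w'.1| ≤ C * (1 + Real.log ρ) ^ 3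

/-! ## Classes -/

/-- CLW.  `P = 2 ^ iOf w`, `ρ = 2 ^ jOf w` (`Nat.log`). -/
def S_CLW : Prop := ∀ w : ℤ × ℤ, Cl (2 ^ iOf w) (2 ^ jOf w) w

/-- ROW (row sums inside a class; needs CLW RNG SMA SMB).  `c₀` from SMA, `C₂` from RNG, `C₃ = 2 C₂ / c₀`.
`w = wz z`, `P = 2 ^ i`, `ρ = 2 ^ j`, `nsq w = 2 mz z ≤ 4 N²`, `ρ ≤ 2.3 N`; `u = sz z - sz z'`, `k = mz z - mz z'`,
`2 k = nsq w - nsq w'`.  `z' = z` contributes at most `2`.  Let `z' ≠ z`.  Different blocks: the block numbers differ by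
at least `K₀`, so `|u| > (K₀ - 1) Lb ≥ C₃ N^(1/3) Lb ≥ C₂ P² / ρ` (`Lb ≥ c₀ P² / ρ^(4/3)`), so by RNG `|k| > C₁ |u|`: `b3`.
Same block: `|u| < Lb`; if `u ≠ 0` then `1 ≤ |u| < Lb`, so `Lb = c₀ P² / ρ^(4/3)`; if also `|k| ≤ C₁ |u|`: `b2` and SMA with
`L = Lb`; otherwise `b3`.  If `u = 0` then `k ≠ 0` (same sign of `p`): `b3`.  The terms with `b3`: SMB
(`|ker| ≤ 2 Ck / |nsq w - nsq w'|`, `2 |u| ≤ |nsq w - nsq w'|`). -/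
def S_ROW : Prop := ∀ (φ : ℝ → ℝ) (C₁ Ck : ℝ), KB φ C₁ Ck → ∃ c₀ C₃ C : ℝ, 0 < c₀ ∧ 0 < C₃ ∧ 0 < C ∧
  ∀ (N K₀ : ℕ) (Z : Finset (ℤ × ℤ)), 1 ≤ N → 2 + C₃ * (N : ℝ) ^ (1 / 3 : ℝ) ≤ K₀ →
  (∀ z ∈ Z, |z.1| ≤ N ∧ |z.2| ≤ N) → ∀ z ∈ Z,
  ∑ z' ∈ Z with cls c₀ K₀ (wz z') = cls c₀ K₀ (wz z), ‖ker φ (sz z - sz z') (mz z - mz z')‖ ≤
    C * (1 + Real.log N) ^ 3

/-- NC1 (number of classes).  `iOf ≤ log₂ (2 N + 1)`, `jOf ≤ log₄ (4 N² + 1)` (`nsq (wz z) = 2 mz z ≤ 4 N²`), four signs,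
`K₀` residues. -/
def S_NC1 : Prop := ∀ (c₀ : ℝ) (N K₀ : ℕ) (Z : Finset (ℤ × ℤ)), 1 ≤ N → 1 ≤ K₀ →
  (∀ z ∈ Z, |z.1| ≤ N ∧ |z.2| ≤ N) →
  ((Z.image (fun z => cls c₀ K₀ (wz z))).card : ℝ) ≤ 100 * (1 + Real.log N) ^ 2 * K₀

/-- NC2 (number of classes, separated short sets).  `|p| ≥ η N`, so `2 ^ iOf` lies in `(η N / 2, 3 N]`, `4 ^ jOf` in
`(η² N² / 4, 5 N²]`: boundedly many `(i, j)`; `Lb ≥ c₀ 4 ^ i / (2 ^ j)^(4/3) ≥ c N^(2/3)` and the `s` lie in an interval of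
length `2 N^(2/3)`: boundedly many blocks for each `(i, j)`. -/
def S_NC2 : Prop := ∀ c₀ η : ℝ, 0 < c₀ → 0 < η → ∃ C : ℝ, 0 < C ∧ ∀ (N K₀ : ℕ) (A B : Finset ℤ), 1 ≤ N →
  (∀ n ∈ A, |n| ≤ N) → (∀ n ∈ B, |n| ≤ N) →
  (∀ n ∈ A, ∀ n' ∈ A, |(n : ℝ) - n'| ≤ (N : ℝ) ^ (2 / 3 : ℝ)) →
  (∀ n ∈ B, ∀ n' ∈ B, |(n : ℝ) - n'| ≤ (N : ℝ) ^ (2 / 3 : ℝ)) →
  (∀ n ∈ A, ∀ n' ∈ B, η * N ≤ |(n : ℝ) - n'|) →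
  (((A ×ˢ B).image (fun z => cls c₀ K₀ (wz z))).card : ℝ) ≤ C

end Pool.Agent.H79.QN
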