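import Pool.Agent.H79.QN.Stmts

/-!
# Board `qn`, second part: phases of finite type (all non-affine real analytic phases)

If every point of `[-1, 1]` has a derivative of `φ` of some order `2 ≤ j ≤ k` which is not zero, the kernel
is `O(|u|^(-1/k))` in the resonant region, and the exponent is `(1 - 1 / k) / 6` (`1 / 12` for `k = 2`).
-/

set_option autoImplicit false

namespace Pool.Agent.H79.QN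

open Finset

/-- phases of type at most `k` -/
structure FT (k : ℕ) (φ : ℝ → ℝ) : Prop where
  smooth : ContDiff ℝ k φ
  d1 : ∀ x ∈ Set.Icc (-1 : ℝ) 1, deriv φ x ≠ 0
  ft : ∀ x ∈ Set.Icc (-1 : ℝ) 1, ∃ j : ℕ, 2 ≤ j ∧ j ≤ k ∧ iteratedDeriv j φ x ≠ 0

/-- kernel bounds of order `k` -/
structure KBk (k : ℕ) (φ : ℝ → ℝ) (C₁ Ck : ℝ) : Prop where
  one_le : 1 ≤ C₁
  pos : 0 < Ck
  b1 : ∀ u m : ℤ, ‖ker φ u m‖ ≤ 2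
  b2 : ∀ u m : ℤ, u ≠ 0 → |(m : ℝ)| ≤ C₁ * |(u : ℝ)| → ‖ker φ u m‖ ≤ Ck / |(u : ℝ)| ^ (1 / k : ℝ)
  b3 : ∀ u m : ℤ, m ≠ 0 → C₁ * |(u : ℝ)| ≤ |(m : ℝ)| → ‖ker φ u m‖ ≤ Ck / |(m : ℝ)|

/-- FD2 (first derivative test with a bound for `θ''`).  `∫ e(θ) = [e(θ) / (2 π i θ')] + (1 / (2 π i)) ∫ e(θ) θ'' / θ'²`,
at most `(1 / (2 π)) (2 / l + (b - a) M / l²)`. -/
def S_FD2 : Prop := ∀ (θ : ℝ → ℝ) (a b l M : ℝ), a ≤ b → ContDiff ℝ 2 θ → 0 < l → 0 ≤ M →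
  (∀ x ∈ Set.Icc a b, l ≤ |deriv θ x|) → (∀ x ∈ Set.Icc a b, |deriv (deriv θ) x| ≤ M) →
  ‖∫ x in a..b, e (θ x)‖ ≤ 1 / l + (b - a) * M / l ^ 2

/-- VDK (van der Corput, order `k`; needs SDT).  Induction on `k`, `k = 2` is SDT.  Step: `|θ^(k+1)| ≥ μ` on `[a, b]`:
`θ^(k+1)` has constant sign, so there is `x₀ ∈ [a, b]` (zero of `θ^(k)`, or the end point with the smaller
`|θ^(k)|`) with `|θ^(k) x| ≥ μ |x - x₀|`.  With `δ = μ^(-1/(k+1))`: the two outer intervals give `C_k (μ δ)^(-1/k)`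
each, `(μ δ)^(-1/k) = δ`, the middle at most `2 δ`: `C_(k+1) = 2 C_k + 2`. -/
def S_VDK : Prop := ∀ k : ℕ, 2 ≤ k → ∃ C : ℝ, 0 < C ∧ ∀ (θ : ℝ → ℝ) (a b μ : ℝ), a ≤ b → ContDiff ℝ k θ →
  0 < μ → (∀ x ∈ Set.Icc a b, μ ≤ |iteratedDeriv k θ x|) →
  ‖∫ x in a..b, e (θ x)‖ ≤ C * μ ^ (-(1 / k : ℝ))

/-- KEK (kernel bounds for finite type; needs FD2, VDK).  By compactness `α ≤ |φ'| ≤ β`, `|φ''| ≤ M` on `[-1, 1]`, and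
`[-1, 1]` is a finite union of consecutive intervals `J` on each of which `|φ^(j)| ≥ μ > 0` for some `2 ≤ j ≤ k`
(Lebesgue number: the open sets `{|φ^(j)| > μ_x}`; equidistant subdivision).  `θ = u x + m φ`, `C₁ = 1 + 2 / α`.
`b1`: `|e| = 1`.  `b3`: `|θ'| ≥ α |m| / 2`, `|θ''| ≤ |m| M`: FD2.  `b2`: if `|u| ≥ 2 β |m|`: `|θ'| ≥ |u| / 2`,
`|θ''| ≤ |m| M ≤ |u| M / (2 β)`: FD2 gives `O(1 / |u|)`; otherwise on each `J` `|θ^(j)| = |m| |φ^(j)| ≥ μ |u| / (2 β)`, VDK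
gives `O(|u|^(-1/j)) = O(|u|^(-1/k))`. -/
def S_KEK : Prop := ∀ (k : ℕ) (φ : ℝ → ℝ), 2 ≤ k → FT k φ → ∃ C₁ Ck : ℝ, KBk k φ C₁ Ck

/-- ROG (row sums inside a class for an abstract kernel `E`; needs CLW RNG SMA SMB; SAME PROOF as ROW, which is
the case `E = ‖ker‖`, `B = 2 + Ck`).  In the same block with `u ≠ 0`: `|u| < Lb = c₀ P² / ρ^(4/3) ≤ D N^(2/3)` since
`P ≤ 3 ρ`, `ρ ≤ 3 N`.  All constants depend only on `C₁`. -/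
def S_ROG : Prop := ∀ C₁ : ℝ, 1 ≤ C₁ → ∃ c₀ C₃ C D : ℝ, 0 < c₀ ∧ 0 < C₃ ∧ 0 < C ∧ 1 ≤ D ∧
  ∀ (N K₀ : ℕ) (Z : Finset (ℤ × ℤ)) (B : ℝ) (E : ℤ → ℤ → ℝ), 1 ≤ N →
  2 + C₃ * (N : ℝ) ^ (1 / 3 : ℝ) ≤ K₀ → (∀ z ∈ Z, |z.1| ≤ N ∧ |z.2| ≤ N) → 0 ≤ B →
  E 0 0 ≤ B →
  (∀ u k : ℤ, u ≠ 0 → |(u : ℝ)| ≤ D * (N : ℝ) ^ (2 / 3 : ℝ) → |(k : ℝ)| ≤ C₁ * |(u : ℝ)| →
    E u k ≤ B / Real.sqrt |(u : ℝ)|) →
  (∀ u k : ℤ, k ≠ 0 → C₁ * |(u : ℝ)| ≤ |(k : ℝ)| → E u k ≤ B / |(k : ℝ)|) →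
  ∀ z ∈ Z, ∑ z' ∈ Z with cls c₀ K₀ (wz z') = cls c₀ K₀ (wz z), E (sz z - sz z') (mz z - mz z') ≤
    C * B * (1 + Real.log N) ^ 3

end Pool.Agent.H79.QN
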